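import Mathlib

set_option linter.unusedSectionVars false
set_option linter.unusedSimpArgs false

/-!
# `COH` proves `IΣ^0_1` over `RCA*_0`

We show that every model of `RCA*_0 + COH` satisfies `IΣ^0_1`, and conclude that `RCA*_0 + COH`
is not `Π^1_1`-conservative over `RCA*_0`.

Idea. If `IΣ^0_1` fails, there is a nondecreasing function `g`, whose graph is in the model, which
is bounded but has no maximum.  Consider the sets `R_m = {x : the g(x)-th binary digit of m is 1}`.
For any unbounded set `C` of the model, collection yields an index `m` whose digits alternate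
along the values of `g` on `C`; this `R_m` splits `C`.  So no set of the model is cohesive for
`(R_m)`.  For the failure of conservativity we use the cut of iterated powers of the diagonal
element in an ultrapower of the natural numbers, with the internal sets as second-order part: it is
a model of `RCA*_0` in which the `Π^1_1` sentence expressing `Σ^0_1` induction fails.
-/

namespace Pool.Agent.Results.MP_a3848c_lc.CohProvesInduction

open Function Filter

/-- Number terms of the language `L_2` of second-order arithmetic. -/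
inductive Tm : Type
  | var : ℕ → Tm
  | zero : Tm
  | one : Tm
  | add : Tm → Tm → Tm
  | mul : Tm → Tm → Tm

/-- `Tm.Has x t`: the number variable `x` occurs in the term `t`. -/
def Tm.Has (x : ℕ) (t : Tm) : Prop :=
  Tm.rec (motive := fun _ => Prop) (fun n => n = x) False False (fun _ _ p q => p ∨ q)
    (fun _ _ p q => p ∨ q) t

/-- Value of a number term. -/
noncomputable def Tm.eval {M : Type} [CommSemiring M] (v : ℕ → M) (t : Tm) : M :=
  Tm.rec (motive := fun _ => M) (fun n => v n) 0 1 (fun _ _ a b => a + b) (fun _ _ a b => a * b) t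

/-- Arithmetical formulas of `L_2` (number quantifiers only, free number and set variables
allowed); the remaining connectives and the existential quantifier are definable. -/
inductive Fm : Type
  | fls : Fm
  | eq : Tm → Tm → Fm
  | lt : Tm → Tm → Fm
  | mem : Tm → ℕ → Fm
  | imp : Fm → Fm → Fm
  | all : ℕ → Fm → Fm

/-- Satisfaction of an arithmetical formula under an assignment `V` of the set variables and
an assignment `v` of the number variables. -/
def Fm.Sat {M : Type} [CommSemiring M] [LinearOrder M] (V : ℕ → Set M) (φ : Fm) :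
    (ℕ → M) → Prop :=
  Fm.rec (motive := fun _ => (ℕ → M) → Prop)
    (fun _ => False)
    (fun s t v => s.eval v = t.eval v)
    (fun s t v => s.eval v < t.eval v)
    (fun t X v => t.eval v ∈ V X)
    (fun _ _ p q v => p v → q v)
    (fun x _ p v => ∀ a : M, p (update v x a)) φ

/-- `Σ^0_0` formulas: closed under implication, falsum and bounded quantification. -/
inductive Sigma00 : Fm → Prop
  | fls : Sigma00 .fls
  | eq (s t : Tm) : Sigma00 (.eq s t)
  | lt (s t : Tm) : Sigma00 (.lt s t)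
  | mem (t : Tm) (X : ℕ) : Sigma00 (.mem t X)
  | imp (φ ψ : Fm) : Sigma00 φ → Sigma00 ψ → Sigma00 (.imp φ ψ)
  | ball (x : ℕ) (t : Tm) (φ : Fm) : ¬ t.Has x → Sigma00 φ →
      Sigma00 (.all x (.imp (.lt (.var x) t) φ))

/-- The pairing function `(a + b)^2 + a`. -/
def pr {M : Type} [CommSemiring M] (a b : M) : M := (a + b) * (a + b) + a

/-- `(M, S)` is a model of `RCA*_0`: the type class arguments and `discrete` say that `M` is (the
nonnegative part of) a discretely ordered commutative ring, i.e. a discretely ordered commutative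
semiring in which `a ≤ b` implies that `b - a` exists; `exp` says that `2^x` is total (its graph,
being `Σ^0_0`-definable, belongs to `S`); the other two clauses are `Σ^0_0` induction and `Δ^0_1`
comprehension with number parameters `v` and set parameters `V` from `S`. -/
structure RCAStar (M : Type) [CommSemiring M] [LinearOrder M] [IsStrictOrderedRing M]
    [CanonicallyOrderedAdd M] (S : Set (Set M)) : Prop where
  discrete : ∀ a b : M, a < b → a + 1 ≤ b
  exp : ∃ f : M → M, f 0 = 1 ∧ (∀ a, f (a + 1) = f a + f a) ∧ {n | ∃ a, n = pr a (f a)} ∈ S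
  induction : ∀ φ : Fm, Sigma00 φ → ∀ (x : ℕ) (v : ℕ → M) (V : ℕ → Set M), (∀ i, V i ∈ S) →
    φ.Sat V (update v x 0) →
    (∀ a, φ.Sat V (update v x a) → φ.Sat V (update v x (a + 1))) →
    ∀ a, φ.Sat V (update v x a)
  comprehension : ∀ φ ψ : Fm, Sigma00 φ → Sigma00 ψ → ∀ (x y z : ℕ) (v : ℕ → M)
    (V : ℕ → Set M), (∀ i, V i ∈ S) →
    (∀ a, (∃ b, φ.Sat V (update (update v x a) y b)) ↔
      ∀ b, ψ.Sat V (update (update v x a) z b)) →
    {a | ∃ b, φ.Sat V (update (update v x a) y b)} ∈ S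

/-- The cohesiveness principle in `(M, S)`; a set `R` codes the sequence `R_i = {c : (i, c) ∈ R}`,
infinite means unbounded and finite means bounded. -/
def COH (M : Type) [CommSemiring M] [LinearOrder M] (S : Set (Set M)) : Prop :=
  ∀ R ∈ S, ∃ C ∈ S, (∀ a, ∃ c ∈ C, a < c) ∧
    ∀ i, (∃ k, ∀ c ∈ C, k < c → pr i c ∈ R) ∨ (∃ k, ∀ c ∈ C, k < c → pr i c ∉ R)

/-- The scheme `IΣ^0_1` in `(M, S)`. -/
def ISigma01 (M : Type) [CommSemiring M] [LinearOrder M] (S : Set (Set M)) : Prop :=
  ∀ φ : Fm, Sigma00 φ → ∀ (x y : ℕ) (v : ℕ → M) (V : ℕ → Set M), (∀ i, V i ∈ S) →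
    (∃ b, φ.Sat V (update (update v x 0) y b)) →
    (∀ a, (∃ b, φ.Sat V (update (update v x a) y b)) →
      ∃ b, φ.Sat V (update (update v x (a + 1)) y b)) →
    ∀ a, ∃ b, φ.Sat V (update (update v x a) y b)

/-- The universal closure of the arithmetical formula `θ` (a `Π^1_1` sentence) is true in
`(M, S)`. -/
def ClosureTrue {M : Type} [CommSemiring M] [LinearOrder M] (S : Set (Set M)) (θ : Fm) : Prop :=
  ∀ (V : ℕ → Set M) (v : ℕ → M), (∀ i, V i ∈ S) → θ.Sat V v

/-- `RCA*_0 + COH` is `Π^1_1`-conservative over `RCA*_0`, where a sentence is provable in a theory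
iff it is true in all models `(M, S)` of the theory (completeness and Löwenheim-Skolem). -/
def Pi11Conservative : Prop :=
  ∀ θ : Fm,
    (∀ (M : Type) [CommSemiring M] [LinearOrder M] [IsStrictOrderedRing M]
      [CanonicallyOrderedAdd M] (S : Set (Set M)), RCAStar M S → COH M S → ClosureTrue S θ) →
    (∀ (M : Type) [CommSemiring M] [LinearOrder M] [IsStrictOrderedRing M]
      [CanonicallyOrderedAdd M] (S : Set (Set M)), RCAStar M S → ClosureTrue S θ)

/-! ### Derived connectives and auxiliary lemmas -/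

def Fm.neg (φ : Fm) : Fm := .imp φ .fls
def Fm.and (φ ψ : Fm) : Fm := Fm.neg (.imp φ (Fm.neg ψ))
def Fm.or (φ ψ : Fm) : Fm := .imp (Fm.neg φ) ψ
def Fm.iff (φ ψ : Fm) : Fm := Fm.and (.imp φ ψ) (.imp ψ φ)
def Fm.ball (x : ℕ) (t : Tm) (φ : Fm) : Fm := .all x (.imp (.lt (.var x) t) φ)
def Fm.bex (x : ℕ) (t : Tm) (φ : Fm) : Fm := Fm.neg (Fm.ball x t (Fm.neg φ))
def Fm.ex (x : ℕ) (φ : Fm) : Fm := Fm.neg (.all x (Fm.neg φ))
def prT (s t : Tm) : Tm := .add (.mul (.add s t) (.add s t)) s
def sc (t : Tm) : Tm := .add t .one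

@[simp] theorem has_var (x n : ℕ) : (Tm.var n).Has x ↔ n = x := Iff.rfl
@[simp] theorem has_zero (x : ℕ) : Tm.zero.Has x ↔ False := Iff.rfl
@[simp] theorem has_one (x : ℕ) : Tm.one.Has x ↔ False := Iff.rfl
@[simp] theorem has_add (x : ℕ) (s t : Tm) : (Tm.add s t).Has x ↔ s.Has x ∨ t.Has x := Iff.rfl
@[simp] theorem has_mul (x : ℕ) (s t : Tm) : (Tm.mul s t).Has x ↔ s.Has x ∨ t.Has x := Iff.rfl

section basic
variable {M : Type} [CommSemiring M] [LinearOrder M]

@[simp] theorem eval_var (v : ℕ → M) (n : ℕ) : (Tm.var n).eval v = v n := rfl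
@[simp] theorem eval_zero (v : ℕ → M) : Tm.zero.eval v = 0 := rfl
@[simp] theorem eval_one (v : ℕ → M) : Tm.one.eval v = 1 := rfl
@[simp] theorem eval_add (v : ℕ → M) (s t : Tm) : (Tm.add s t).eval v = s.eval v + t.eval v := rfl
@[simp] theorem eval_mul (v : ℕ → M) (s t : Tm) : (Tm.mul s t).eval v = s.eval v * t.eval v := rfl

@[simp] theorem sat_fls (V : ℕ → Set M) (v : ℕ → M) : Fm.Sat V .fls v ↔ False := Iff.rfl
@[simp] theorem sat_eq (V : ℕ → Set M) (v : ℕ → M) (s t : Tm) :
    Fm.Sat V (.eq s t) v ↔ s.eval v = t.eval v := Iff.rfl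
@[simp] theorem sat_lt (V : ℕ → Set M) (v : ℕ → M) (s t : Tm) :
    Fm.Sat V (.lt s t) v ↔ s.eval v < t.eval v := Iff.rfl
@[simp] theorem sat_mem (V : ℕ → Set M) (v : ℕ → M) (t : Tm) (X : ℕ) :
    Fm.Sat V (.mem t X) v ↔ t.eval v ∈ V X := Iff.rfl
@[simp] theorem sat_imp (V : ℕ → Set M) (v : ℕ → M) (φ ψ : Fm) :
    Fm.Sat V (.imp φ ψ) v ↔ (φ.Sat V v → ψ.Sat V v) := Iff.rfl
@[simp] theorem sat_all (V : ℕ → Set M) (v : ℕ → M) (x : ℕ) (φ : Fm) :
    Fm.Sat V (.all x φ) v ↔ ∀ a : M, φ.Sat V (update v x a) := Iff.rfl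
@[simp] theorem sat_neg (V : ℕ → Set M) (v : ℕ → M) (φ : Fm) :
    Fm.Sat V (Fm.neg φ) v ↔ ¬ φ.Sat V v := Iff.rfl
@[simp] theorem sat_and (V : ℕ → Set M) (v : ℕ → M) (φ ψ : Fm) :
    Fm.Sat V (Fm.and φ ψ) v ↔ (φ.Sat V v ∧ ψ.Sat V v) := by
  unfold Fm.and; simp
@[simp] theorem sat_or (V : ℕ → Set M) (v : ℕ → M) (φ ψ : Fm) :
    Fm.Sat V (Fm.or φ ψ) v ↔ (φ.Sat V v ∨ ψ.Sat V v) := by
  unfold Fm.or; simp [or_iff_not_imp_left]
@[simp] theorem sat_iff (V : ℕ → Set M) (v : ℕ → M) (φ ψ : Fm) :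
    Fm.Sat V (Fm.iff φ ψ) v ↔ (φ.Sat V v ↔ ψ.Sat V v) := by
  unfold Fm.iff; simp [iff_iff_implies_and_implies]
@[simp] theorem sat_ball (V : ℕ → Set M) (v : ℕ → M) (x : ℕ) (t : Tm) (φ : Fm) :
    Fm.Sat V (Fm.ball x t φ) v ↔ ∀ a : M, a < t.eval (update v x a) → φ.Sat V (update v x a) := by
  unfold Fm.ball; simp [eval_var, eval_zero, eval_one, eval_add, eval_mul]
@[simp] theorem sat_bex (V : ℕ → Set M) (v : ℕ → M) (x : ℕ) (t : Tm) (φ : Fm) :
    Fm.Sat V (Fm.bex x t φ) v ↔ ∃ a : M, a < t.eval (update v x a) ∧ φ.Sat V (update v x a) := by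
  unfold Fm.bex; simp
@[simp] theorem sat_ex (V : ℕ → Set M) (v : ℕ → M) (x : ℕ) (φ : Fm) :
    Fm.Sat V (Fm.ex x φ) v ↔ ∃ a : M, φ.Sat V (update v x a) := by
  unfold Fm.ex; simp
@[simp] theorem eval_prT (v : ℕ → M) (s t : Tm) :
    (prT s t).eval v = pr (s.eval v) (t.eval v) := rfl
@[simp] theorem eval_sc (v : ℕ → M) (t : Tm) : (sc t).eval v = t.eval v + 1 := rfl

end basic

theorem Sigma00.neg' {φ : Fm} (h : Sigma00 φ) : Sigma00 (Fm.neg φ) := .imp _ _ h .fls
theorem Sigma00.and' {φ ψ : Fm} (h : Sigma00 φ) (h' : Sigma00 ψ) : Sigma00 (Fm.and φ ψ) :=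
  (Sigma00.imp _ _ h h'.neg').neg'
theorem Sigma00.or' {φ ψ : Fm} (h : Sigma00 φ) (h' : Sigma00 ψ) : Sigma00 (Fm.or φ ψ) :=
  .imp _ _ h.neg' h'
theorem Sigma00.iff' {φ ψ : Fm} (h : Sigma00 φ) (h' : Sigma00 ψ) : Sigma00 (Fm.iff φ ψ) :=
  Sigma00.and' (.imp _ _ h h') (.imp _ _ h' h)
theorem Sigma00.ball' {x : ℕ} {t : Tm} {φ : Fm} (hx : ¬ t.Has x) (h : Sigma00 φ) :
    Sigma00 (Fm.ball x t φ) := .ball _ _ _ hx h
theorem Sigma00.bex' {x : ℕ} {t : Tm} {φ : Fm} (hx : ¬ t.Has x) (h : Sigma00 φ) :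
    Sigma00 (Fm.bex x t φ) := (Sigma00.ball' hx h.neg').neg'

/-- strict bound for all number variables of a term -/
def Tm.bd : Tm → ℕ
  | .var n => n + 1
  | .zero => 0
  | .one => 0
  | .add s t => max s.bd t.bd
  | .mul s t => max s.bd t.bd

/-- strict bound for all number variables of a formula -/
def Fm.bd : Fm → ℕ
  | .fls => 0
  | .eq s t => max s.bd t.bd
  | .lt s t => max s.bd t.bd
  | .mem t _ => t.bd
  | .imp φ ψ => max φ.bd ψ.bd
  | .all x φ => max (x + 1) φ.bd

theorem Tm.not_has_of_bd {x : ℕ} : ∀ {t : Tm}, t.bd ≤ x → ¬ t.Has x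
  | .var n, h => by simp only [Tm.bd, has_var, has_zero, has_one, has_add, has_mul] at *; omega
  | .zero, _ => by simp [has_var, has_zero, has_one, has_add, has_mul]
  | .one, _ => by simp [has_var, has_zero, has_one, has_add, has_mul]
  | .add s t, h => by
    simp only [Tm.bd, max_le_iff, has_var, has_zero, has_one, has_add, has_mul, not_or] at *
    exact ⟨Tm.not_has_of_bd h.1, Tm.not_has_of_bd h.2⟩
  | .mul s t, h => by
    simp only [Tm.bd, max_le_iff, has_var, has_zero, has_one, has_add, has_mul, not_or] at *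
    exact ⟨Tm.not_has_of_bd h.1, Tm.not_has_of_bd h.2⟩

section congr
variable {M : Type} [CommSemiring M] [LinearOrder M]

theorem Tm.eval_congr {v w : ℕ → M} : ∀ {t : Tm}, (∀ i < t.bd, v i = w i) → t.eval v = t.eval w
  | .var n, h => h n (by simp [Tm.bd])
  | .zero, _ => rfl
  | .one, _ => rfl
  | .add s t, h => by
    simp only [Tm.bd, eval_var, eval_zero, eval_one, eval_add, eval_mul] at *
    rw [Tm.eval_congr (t := s) fun i hi => h i (by omega),
      Tm.eval_congr (t := t) fun i hi => h i (by omega)]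
  | .mul s t, h => by
    simp only [Tm.bd, eval_var, eval_zero, eval_one, eval_add, eval_mul] at *
    rw [Tm.eval_congr (t := s) fun i hi => h i (by omega),
      Tm.eval_congr (t := t) fun i hi => h i (by omega)]

theorem Tm.eval_update {v : ℕ → M} {x : ℕ} {a : M} :
    ∀ {t : Tm}, ¬ t.Has x → t.eval (update v x a) = t.eval v
  | .var n, h => by simp only [has_var, has_zero, has_one, has_add, has_mul] at h; simp [eval_var, eval_zero, eval_one, eval_add, eval_mul, update_of_ne h]
  | .zero, _ => rfl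
  | .one, _ => rfl
  | .add s t, h => by
    simp only [has_var, has_zero, has_one, has_add, has_mul, not_or] at h
    simp only [eval_var, eval_zero, eval_one, eval_add, eval_mul, Tm.eval_update h.1, Tm.eval_update h.2]
  | .mul s t, h => by
    simp only [has_var, has_zero, has_one, has_add, has_mul, not_or] at h
    simp only [eval_var, eval_zero, eval_one, eval_add, eval_mul, Tm.eval_update h.1, Tm.eval_update h.2]

theorem Fm.sat_congr {V : ℕ → Set M} (φ : Fm) : ∀ {v w : ℕ → M}, (∀ i < φ.bd, v i = w i) →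
    (φ.Sat V v ↔ φ.Sat V w) := by
  induction φ with
  | fls => intro v w _; simp
  | eq s t =>
    intro v w h
    simp only [Fm.bd] at h
    rw [sat_eq, sat_eq, Tm.eval_congr (t := s) fun i hi => h i (by omega),
      Tm.eval_congr (t := t) fun i hi => h i (by omega)]
  | lt s t =>
    intro v w h
    simp only [Fm.bd] at h
    rw [sat_lt, sat_lt, Tm.eval_congr (t := s) fun i hi => h i (by omega),
      Tm.eval_congr (t := t) fun i hi => h i (by omega)]
  | mem t X =>
    intro v w h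
    simp only [Fm.bd] at h
    rw [sat_mem, sat_mem, Tm.eval_congr (t := t) fun i hi => h i (by omega)]
  | imp φ ψ ih1 ih2 =>
    intro v w h
    simp only [Fm.bd] at h
    rw [sat_imp, sat_imp, ih1 fun i hi => h i (by omega), ih2 fun i hi => h i (by omega)]
  | all x φ ih =>
    intro v w h
    simp only [Fm.bd] at h
    rw [sat_all, sat_all]
    refine forall_congr' fun a => ih fun i hi => ?_
    by_cases hix : i = x
    · subst hix; simp
    · rw [update_of_ne hix, update_of_ne hix]; exact h i (by omega)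

end congr

section order
variable {M : Type} [CommSemiring M] [LinearOrder M] [IsStrictOrderedRing M]
  [CanonicallyOrderedAdd M]

theorem lt_succ {S : Set (Set M)} (h : RCAStar M S) {a b : M} : a < b + 1 ↔ a ≤ b := by
  constructor
  · intro hab
    by_contra hba
    push Not at hba
    exact absurd (h.discrete _ _ hba) (not_le.mpr hab)
  · intro hab
    exact lt_of_le_of_lt hab (lt_add_of_pos_right _ one_pos)

theorem zero_or_succ {S : Set (Set M)} (h : RCAStar M S) (a : M) : a = 0 ∨ ∃ b, a = b + 1 := by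
  rcases eq_or_ne a 0 with h0 | h0
  · exact Or.inl h0
  · right
    have h1 : (0 : M) < a := pos_iff_ne_zero.mpr h0
    have h2 : (1 : M) ≤ a := by simpa using h.discrete _ _ h1
    obtain ⟨c, hc⟩ := exists_add_of_le h2
    exact ⟨c, by rw [hc, add_comm]⟩

theorem le_mul_self {S : Set (Set M)} (h : RCAStar M S) (a : M) : a ≤ a * a := by
  rcases zero_or_succ h a with rfl | ⟨b, rfl⟩
  · simp
  · calc b + 1 = (b + 1) * 1 := by ring
      _ ≤ (b + 1) * (b + 1) := by gcongr; exact le_add_self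

theorem le_pr_left (a b : M) : a ≤ pr a b := le_add_self

theorem le_pr_right {S : Set (Set M)} (h : RCAStar M S) (a b : M) : b ≤ pr a b := by
  calc b ≤ a + b := le_add_self
    _ ≤ (a + b) * (a + b) := le_mul_self h _
    _ ≤ pr a b := le_self_add

theorem pr_aux {S : Set (Set M)} (h : RCAStar M S) {a b a' b' : M} (hlt : a + b < a' + b') :
    pr a b ≠ pr a' b' := by
  obtain ⟨c, hc⟩ := exists_add_of_le (h.discrete _ _ hlt)
  intro he
  unfold pr at he
  rw [hc] at he
  have h2 : a + (a + b + b + 2 * (a + b) * c + (c * c + 2 * c) + a' + 1) = a := by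
    have h3 : (a + b) * (a + b) + (a + (a + b + b + 2 * (a + b) * c + (c * c + 2 * c) + a' + 1))
        = (a + b) * (a + b) + a := by
      rw [he]; ring
    exact add_left_cancel h3
  have h4 : a + b + b + 2 * (a + b) * c + (c * c + 2 * c) + a' + 1 = 0 := by
    have := h2.trans (add_zero a).symm
    exact add_left_cancel this
  have h5 : (0 : M) < a + b + b + 2 * (a + b) * c + (c * c + 2 * c) + a' + 1 :=
    lt_of_lt_of_le one_pos le_add_self
  exact absurd h4 h5.ne'

theorem pr_inj {S : Set (Set M)} (h : RCAStar M S) {a b a' b' : M} :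
    pr a b = pr a' b' ↔ a = a' ∧ b = b' := by
  constructor
  · intro he
    rcases lt_trichotomy (a + b) (a' + b') with hlt | heq | hgt
    · exact absurd he (pr_aux h hlt)
    · unfold pr at he
      rw [heq] at he
      have ha : a = a' := add_left_cancel he
      subst ha
      exact ⟨rfl, add_left_cancel heq⟩
    · exact absurd he.symm (pr_aux h hgt)
  · rintro ⟨rfl, rfl⟩; rfl

end order

section comp
variable {M : Type} [CommSemiring M] [LinearOrder M] [IsStrictOrderedRing M]
  [CanonicallyOrderedAdd M] {S : Set (Set M)}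

theorem comp0 (h : RCAStar M S) {φ : Fm} (hφ : Sigma00 φ) (x : ℕ) (v : ℕ → M) {V : ℕ → Set M}
    (hV : ∀ i, V i ∈ S) : {a | φ.Sat V (update v x a)} ∈ S := by
  set y := max φ.bd (x + 1) with hy
  have key : ∀ a b, φ.Sat V (update (update v x a) y b) ↔ φ.Sat V (update v x a) := by
    intro a b
    apply Fm.sat_congr
    intro i hi
    rw [update_of_ne]
    have : φ.bd ≤ y := le_max_left _ _
    omega
  have h1 := h.comprehension φ φ hφ hφ x y y v V hV (by
    intro a
    simp only [key]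
    constructor
    · rintro ⟨_, hb⟩ _; exact hb
    · intro hb; exact ⟨0, hb 0⟩)
  simp only [key] at h1
  have h2 : {a | ∃ _ : M, φ.Sat V (update v x a)} = {a | φ.Sat V (update v x a)} := by
    ext a; simp
  rwa [h2] at h1

/-- binary version: code a `Σ^0_0` relation by a set of pairs. -/
theorem comp2 (h : RCAStar M S) {φ : Fm} (hφ : Sigma00 φ) {x y : ℕ} (hxy : x ≠ y) (v : ℕ → M)
    {V : ℕ → Set M} (hV : ∀ i, V i ∈ S) :
    ∃ A ∈ S, ∀ a b, pr a b ∈ A ↔ φ.Sat V (update (update v x a) y b) := by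
  set z := max φ.bd (max (x + 1) (y + 1)) with hz
  have hz1 : φ.bd ≤ z := le_max_left _ _
  have hzx : x + 1 ≤ z := (le_max_left _ _).trans (le_max_right _ _)
  have hzy : y + 1 ≤ z := (le_max_right _ _).trans (le_max_right _ _)
  have hxz : z ≠ x := by omega
  have hyz : z ≠ y := by omega
  refine ⟨_, comp0 h (φ := Fm.bex x (sc (.var z)) (Fm.bex y (sc (.var z))
    (Fm.and (.eq (.var z) (prT (.var x) (.var y))) φ))) ?_ z v hV, ?_⟩
  · refine Sigma00.bex' ?_ (Sigma00.bex' ?_ (Sigma00.and' (.eq _ _) hφ))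
    · simp only [sc, has_var, has_zero, has_one, has_add, has_mul, or_false]; exact hxz
    · simp only [sc, has_var, has_zero, has_one, has_add, has_mul, or_false]; exact hyz
  · intro a b
    simp only [Set.mem_ofPred_eq, sat_bex, sat_and, sat_eq, eval_sc, eval_prT, eval_var, eval_zero, eval_one, eval_add, eval_mul, lt_succ h]
    simp only [update_of_ne hxz, update_of_ne hyz, update_self, update_of_ne hxy]
    have key : ∀ n i j, φ.Sat V (update (update (update v z n) x i) y j) ↔
        φ.Sat V (update (update v x i) y j) := by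
      intro n i j
      apply Fm.sat_congr
      intro k hk
      by_cases hky : k = y
      · subst hky; simp
      · rw [update_of_ne hky, update_of_ne hky]
        by_cases hkx : k = x
        · subst hkx; simp
        · rw [update_of_ne hkx, update_of_ne hkx, update_of_ne]
          omega
    simp only [key]
    constructor
    · rintro ⟨i, _, j, _, he, hs⟩
      obtain ⟨rfl, rfl⟩ := (pr_inj h).1 he
      exact hs
    · intro hs
      exact ⟨a, le_pr_left _ _, b, le_pr_right h _ _, rfl, hs⟩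

/-- set induction -/
theorem set_ind (h : RCAStar M S) {A : Set M} (hA : A ∈ S) (h0 : (0 : M) ∈ A)
    (hs : ∀ a ∈ A, a + 1 ∈ A) : ∀ a, a ∈ A := by
  have := h.induction (.mem (.var 0) 0) (.mem _ _) 0 (fun _ => 0) (fun _ => A) (fun _ => hA)
    (by simpa [eval_var, eval_zero, eval_one, eval_add, eval_mul] using h0) (by simpa [eval_var, eval_zero, eval_one, eval_add, eval_mul] using hs)
  simpa [eval_var, eval_zero, eval_one, eval_add, eval_mul] using this

/-- least number principle for sets -/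
theorem set_least (h : RCAStar M S) {A : Set M} (hA : A ∈ S) {a : M} (ha : a ∈ A) :
    ∃ m ∈ A, ∀ b < m, b ∉ A := by
  by_contra hcon
  push Not at hcon
  have hB := comp0 h (φ := Fm.ball 1 (.var 0) (Fm.neg (.mem (.var 1) 0)))
    (Sigma00.ball' (by simp [has_var, has_zero, has_one, has_add, has_mul]) (Sigma00.neg' (.mem _ _))) 0 (fun _ => 0)
    (V := fun _ => A) (fun _ => hA)
  have hBm : ∀ n, n ∈ {a | (Fm.ball 1 (.var 0) (Fm.neg (.mem (.var 1) 0))).Sat (fun _ => A)
      (update (fun _ => (0 : M)) 0 a)} ↔ ∀ b < n, b ∉ A := by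
    intro n; simp [eval_var, eval_zero, eval_one, eval_add, eval_mul]
  have hall := set_ind h hB ((hBm 0).2 fun b hb => absurd hb (not_lt.mpr zero_le))
    (fun n hn => (hBm _).2 fun b hb => by
      have hn' := (hBm n).1 hn
      rcases ((lt_succ h).1 hb).lt_or_eq with hlt | rfl
      · exact hn' b hlt
      · intro hbA
        obtain ⟨c, hc, hcA⟩ := hcon b hbA
        exact hn' c hc hcA)
  exact (hBm _).1 (hall (a + 1)) a ((lt_succ h).2 le_rfl) ha

/-- fibers of sets of pairs -/
theorem fiber (h : RCAStar M S) {A : Set M} (hA : A ∈ S) (z : M) : {i | pr z i ∈ A} ∈ S := by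
  have hB := comp0 h (φ := .mem (prT (.var 1) (.var 0)) 0) (.mem _ _) 0 (fun _ => z)
    (V := fun _ => A) (fun _ => hA)
  simpa [eval_var, eval_zero, eval_one, eval_add, eval_mul, update_apply] using hB

end comp

/-- assignment given by a list -/
def val {M : Type} [Zero M] (l : List M) (n : ℕ) : M := l.getD n 0

def vset {M : Type} (A : Set M) (l : List (Set M)) (n : ℕ) : Set M := l.getD n A

theorem vset_mem {M : Type} {S : Set (Set M)} {A : Set M} (hA : A ∈ S) {l : List (Set M)}
    (hl : ∀ B ∈ l, B ∈ S) : ∀ i, vset A l i ∈ S := by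
  intro i
  unfold vset
  rcases lt_or_ge i l.length with h | h
  · rw [List.getD_eq_getElem _ _ h]
    exact hl _ (List.getElem_mem h)
  · rw [List.getD_eq_default _ _ h]; exact hA

section expo
variable {M : Type} [CommSemiring M] [LinearOrder M] [IsStrictOrderedRing M]
  [CanonicallyOrderedAdd M] {S : Set (Set M)}

/-- comprehension for a `Σ^0_0` formula in which one variable is replaced by the value of a
function whose graph is in `S` -/
theorem compFun (h : RCAStar M S) {φ : Fm} (hφ : Sigma00 φ) {x y : ℕ} (hxy : x ≠ y)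
    (v : ℕ → M) {V : ℕ → Set M} (hV : ∀ i, V i ∈ S) {X : ℕ} {g : M → M}
    (hg : ∀ a w, pr a w ∈ V X ↔ w = g a) :
    {a | φ.Sat V (update (update v x a) y (g a))} ∈ S := by
  have h1 := h.comprehension (Fm.and (.mem (prT (.var x) (.var y)) X) φ)
    (.imp (.mem (prT (.var x) (.var y)) X) φ) (Sigma00.and' (.mem _ _) hφ)
    (.imp _ _ (.mem _ _) hφ) x y y v V hV (by
      intro a
      simp only [sat_and, sat_imp, sat_mem, eval_prT, eval_var, eval_zero, eval_one, eval_add, eval_mul, update_self, update_of_ne hxy, hg]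
      constructor
      · rintro ⟨b, rfl, hb⟩ c rfl; exact hb
      · intro hb; exact ⟨_, rfl, hb _ rfl⟩)
  have h2 : {a | ∃ b, (Fm.and (.mem (prT (.var x) (.var y)) X) φ).Sat V
      (update (update v x a) y b)} = {a | φ.Sat V (update (update v x a) y (g a))} := by
    ext a
    simp only [sat_and, sat_mem, eval_prT, eval_var, eval_zero, eval_one, eval_add, eval_mul, update_self, update_of_ne hxy, hg,
      Set.mem_ofPred_eq]
    constructor
    · rintro ⟨b, rfl, hb⟩; exact hb
    · intro hb; exact ⟨_, rfl, hb⟩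
  rwa [h2] at h1

variable {f : M → M}

theorem graph_mem (h : RCAStar M S) (a w : M) :
    pr a w ∈ {n | ∃ a, n = pr a (f a)} ↔ w = f a := by
  simp only [Set.mem_ofPred_eq]
  constructor
  · rintro ⟨b, hb⟩
    obtain ⟨rfl, rfl⟩ := (pr_inj h).1 hb
    rfl
  · rintro rfl; exact ⟨a, rfl⟩

theorem exp_pos (h : RCAStar M S) (f0 : f 0 = 1) (fs : ∀ a, f (a + 1) = f a + f a)
    (fS : {n | ∃ a, n = pr a (f a)} ∈ S) (a : M) : 0 < f a := by
  have hA := compFun h (φ := Fm.lt .zero (.var 1)) (.lt _ _) (x := 0) (y := 1) (by decide)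
    (fun _ => 0) (V := fun _ => {n | ∃ a, n = pr a (f a)}) (fun _ => fS) (X := 0) (g := f)
    (graph_mem h)
  have := set_ind h hA (by simp [eval_var, eval_zero, eval_one, eval_add, eval_mul, f0]) (by
    intro a ha
    simp only [sat_lt, eval_var, eval_zero, eval_one, eval_add, eval_mul, update_self, Set.mem_ofPred_eq] at ha ⊢
    rw [fs]; exact lt_of_lt_of_le ha le_self_add) a
  simpa [eval_var, eval_zero, eval_one, eval_add, eval_mul] using this

theorem exp_dvd (h : RCAStar M S) (f0 : f 0 = 1) (fs : ∀ a, f (a + 1) = f a + f a)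
    (fS : {n | ∃ a, n = pr a (f a)} ∈ S) (j k : M) (hjk : j ≤ k) : ∃ u, f k = u * f j := by
  have hpos := exp_pos h f0 fs fS
  have hA := compFun h (φ := .imp (Fm.neg (.lt (.var 0) (.var 2)))
      (Fm.bex 4 (sc (.var 1)) (.eq (.var 1) (.mul (.var 4) (.var 3)))))
    (.imp _ _ (Sigma00.neg' (.lt _ _)) (Sigma00.bex' (by simp [sc, has_var, has_zero, has_one, has_add, has_mul]) (.eq _ _)))
    (x := 0) (y := 1) (by decide)
    (val [0, 0, j, f j]) (V := fun _ => {n | ∃ a, n = pr a (f a)}) (fun _ => fS)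
    (X := 0) (g := f) (graph_mem h)
  set A := {a | (Fm.imp (Fm.neg (.lt (.var 0) (.var 2)))
      (Fm.bex 4 (sc (.var 1)) (.eq (.var 1) (.mul (.var 4) (.var 3))))).Sat
      (fun _ => {n | ∃ a, n = pr a (f a)})
      (update (update (val [0, 0, j, f j]) 0 a) 1 (f a))} with hAdef
  have hAm : ∀ a, a ∈ A ↔ (j ≤ a → ∃ u, f a = u * f j) := by
    intro a
    rw [hAdef]
    simp only [Set.mem_ofPred_eq, sat_imp, sat_neg, sat_lt, eval_var, eval_zero, eval_one, eval_add, eval_mul, sat_bex, eval_sc, sat_eq]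
    simp only [update_apply, val]
    simp only [not_lt, lt_succ h]
    simp
    refine imp_congr_right fun _ => exists_congr fun u => ?_
    constructor
    · rintro ⟨_, he⟩; exact he
    · intro he
      refine ⟨?_, he⟩
      rw [he]
      have h1 : (1 : M) ≤ f j := by simpa using h.discrete _ _ (hpos j)
      calc u = u * 1 := (mul_one u).symm
        _ ≤ u * f j := by gcongr
  have := set_ind h hA ((hAm 0).2 (by
      intro hj
      have : j = 0 := le_antisymm hj zero_le
      subst this; exact ⟨1, (one_mul _).symm⟩)) (by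
    intro a ha
    rw [hAm] at ha ⊢
    intro hja
    rcases hja.lt_or_eq with hlt | rfl
    · obtain ⟨u, hu⟩ := ha ((lt_succ h).1 hlt)
      exact ⟨u + u, by rw [fs, hu]; ring⟩
    · exact ⟨1, (one_mul _).symm⟩) k
  exact (hAm k).1 this hjk

theorem exp_mono (h : RCAStar M S) (f0 : f 0 = 1) (fs : ∀ a, f (a + 1) = f a + f a)
    (fS : {n | ∃ a, n = pr a (f a)} ∈ S) (j k : M) (hjk : j ≤ k) : f j ≤ f k := by
  obtain ⟨u, hu⟩ := exp_dvd h f0 fs fS j k hjk
  rcases zero_or_succ h u with rfl | ⟨w, rfl⟩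
  · have := exp_pos h f0 fs fS k
    rw [hu] at this; simp at this
  · rw [hu]
    calc f j = 1 * f j := (one_mul _).symm
      _ ≤ (w + 1) * f j := by gcongr; exact le_add_self

/-- the `i`-th binary digit of `m` is one -/
def bit (f : M → M) (i m : M) : Prop := ∃ q r, r < f i + f i ∧ m = q * (f i + f i) + r ∧ f i ≤ r

theorem bit_self_lt {k m : M} (hm : m < f k) : ¬ bit f k m := by
  rintro ⟨q, r, _, he, hr⟩
  have : f k ≤ m := by rw [he]; exact hr.trans le_add_self
  exact absurd hm (not_lt.mpr this)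

theorem bit_self_add {k m : M} (hm : m < f k) : bit f k (m + f k) :=
  ⟨0, m + f k, by gcongr, by simp, le_add_self⟩

theorem bit_add (h : RCAStar M S) (f0 : f 0 = 1) (fs : ∀ a, f (a + 1) = f a + f a)
    (fS : {n | ∃ a, n = pr a (f a)} ∈ S) {j k m : M} (hjk : j < k) :
    bit f j (m + f k) ↔ bit f j m := by
  obtain ⟨u, hu⟩ := exp_dvd h f0 fs fS (j + 1) k (h.discrete _ _ hjk)
  rw [fs] at hu
  unfold bit
  rw [hu]
  constructor
  · rintro ⟨q, r, hr, he, hr'⟩
    have huq : u ≤ q := by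
      by_contra hcon
      push Not at hcon
      have h1 : q + 1 ≤ u := h.discrete _ _ hcon
      have h2 : q * (f j + f j) + r < m + u * (f j + f j) := by
        calc q * (f j + f j) + r < q * (f j + f j) + (f j + f j) := by gcongr
          _ = (q + 1) * (f j + f j) := by ring
          _ ≤ u * (f j + f j) := by gcongr
          _ ≤ m + u * (f j + f j) := le_add_self
      exact absurd he h2.ne'
    obtain ⟨c, rfl⟩ := exists_add_of_le huq
    refine ⟨c, r, hr, ?_, hr'⟩
    have h3 : u * (f j + f j) + m = u * (f j + f j) + (c * (f j + f j) + r) := by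
      rw [add_comm _ m, he]; ring
    exact add_left_cancel h3
  · rintro ⟨q, r, hr, rfl, hr'⟩
    exact ⟨q + u, r, hr, by ring, hr'⟩

/-- the digit relation is in `S` -/
theorem bit_set (h : RCAStar M S) (f0 : f 0 = 1) (fs : ∀ a, f (a + 1) = f a + f a)
    (fS : {n | ∃ a, n = pr a (f a)} ∈ S) : ∃ E ∈ S, ∀ i m, pr i m ∈ E ↔ bit f i m := by
  have hpos := exp_pos h f0 fs fS
  obtain ⟨E, hE, hEm⟩ := comp2 h (x := 0) (y := 1) (φ :=
    Fm.bex 2 (sc (.var 1)) (Fm.and (.mem (prT (.var 0) (.var 2)) 0)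
      (Fm.bex 3 (sc (.var 1)) (Fm.bex 4 (sc (.var 1))
        (Fm.and (.lt (.var 4) (.add (.var 2) (.var 2)))
          (Fm.and (.eq (.var 1) (.add (.mul (.var 3) (.add (.var 2) (.var 2))) (.var 4)))
            (Fm.neg (.lt (.var 4) (.var 2)))))))))
    (Sigma00.bex' (by simp [sc, has_var, has_zero, has_one, has_add, has_mul]) (Sigma00.and' (.mem _ _)
      (Sigma00.bex' (by simp [sc, has_var, has_zero, has_one, has_add, has_mul]) (Sigma00.bex' (by simp [sc, has_var, has_zero, has_one, has_add, has_mul])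
        (Sigma00.and' (.lt _ _) (Sigma00.and' (.eq _ _) (Sigma00.neg' (.lt _ _))))))))
    (by decide) (fun _ => 0) (V := fun _ => {n | ∃ a, n = pr a (f a)}) (fun _ => fS)
  refine ⟨E, hE, fun i m => ?_⟩
  rw [hEm]
  simp only [sat_bex, sat_and, sat_mem, sat_lt, sat_eq, sat_neg, eval_prT, eval_sc, eval_var, eval_zero, eval_one, eval_add, eval_mul]
  simp only [update_apply]
  simp only [lt_succ h]
  simp only [Nat.reduceEqDiff, if_true, if_false,
    OfNat.ofNat_ne_zero, OfNat.ofNat_ne_one, OfNat.zero_ne_ofNat, zero_ne_one, one_ne_zero,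
    OfNat.one_ne_ofNat, graph_mem h, not_lt]
  unfold bit
  constructor
  · rintro ⟨w, _, rfl, q, _, r, _, hr, he, hr'⟩
    exact ⟨q, r, hr, he, hr'⟩
  · rintro ⟨q, r, hr, he, hr'⟩
    have h1 : r ≤ m := by rw [he]; exact le_add_self
    have h2 : q ≤ m := by
      have h1 : (1 : M) ≤ f i + f i := by
        simpa using h.discrete _ _ (lt_of_lt_of_le (hpos i) le_self_add)
      calc q = q * 1 := (mul_one q).symm
        _ ≤ q * (f i + f i) := by gcongr
        _ ≤ m := by rw [he]; exact le_self_add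
    exact ⟨f i, hr'.trans h1, rfl, q, h2, r, h1, hr, he, hr'⟩

end expo

section bounding
variable {M : Type} [CommSemiring M] [LinearOrder M] [IsStrictOrderedRing M]
  [CanonicallyOrderedAdd M] {S : Set (Set M)}

/-- binary `Δ^0_1` comprehension -/
theorem comp2D (h : RCAStar M S) {φ ψ : Fm} (hφ : Sigma00 φ) (hψ : Sigma00 ψ) (v : ℕ → M)
    {V : ℕ → Set M} (hV : ∀ i, V i ∈ S)
    (hiff : ∀ a b, (∃ c, φ.Sat V (update (update (update v 0 a) 1 b) 2 c)) ↔
      ∀ c, ψ.Sat V (update (update (update v 0 a) 1 b) 2 c)) :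
    ∃ A ∈ S, ∀ a b, pr a b ∈ A ↔ ∃ c, φ.Sat V (update (update (update v 0 a) 1 b) 2 c) := by
  set z := max φ.bd (max ψ.bd 3) with hz
  have hz1 : φ.bd ≤ z := le_max_left _ _
  have hz2 : ψ.bd ≤ z := (le_max_left _ _).trans (le_max_right _ _)
  have hz3 : 3 ≤ z := (le_max_right _ _).trans (le_max_right _ _)
  have e0 : z ≠ 0 := by omega
  have e1 : z ≠ 1 := by omega
  have e2 : z ≠ 2 := by omega
  have key : ∀ (χ : Fm), χ.bd ≤ z → ∀ n c a b,
      χ.Sat V (update (update (update (update v z n) 2 c) 0 a) 1 b) ↔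
      χ.Sat V (update (update (update v 0 a) 1 b) 2 c) := by
    intro χ hχ n c a b
    apply Fm.sat_congr
    intro k hk
    simp only [update_apply]
    have : k ≠ z := by omega
    split_ifs <;> first | rfl | omega
  have hmemφ : ∀ n c, (Fm.bex 0 (sc (.var z)) (Fm.bex 1 (sc (.var z))
      (Fm.and (.eq (.var z) (prT (.var 0) (.var 1))) φ))).Sat V (update (update v z n) 2 c) ↔
      ∃ a b, n = pr a b ∧ φ.Sat V (update (update (update v 0 a) 1 b) 2 c) := by
    intro n c
    simp only [sat_bex, sat_and, sat_eq, eval_sc, eval_prT, eval_var, eval_zero, eval_one, eval_add, eval_mul, lt_succ h, key φ hz1]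
    simp only [update_of_ne e0, update_of_ne e1, update_of_ne e2, update_self,
      update_of_ne (show (0 : ℕ) ≠ 1 by decide)]
    constructor
    · rintro ⟨a, _, b, _, he, hs⟩; exact ⟨a, b, he, hs⟩
    · rintro ⟨a, b, rfl, hs⟩
      exact ⟨a, le_pr_left _ _, b, le_pr_right h _ _, rfl, hs⟩
  have hmemψ : ∀ n c, (Fm.bex 0 (sc (.var z)) (Fm.bex 1 (sc (.var z))
      (Fm.and (.eq (.var z) (prT (.var 0) (.var 1))) ψ))).Sat V (update (update v z n) 2 c) ↔
      ∃ a b, n = pr a b ∧ ψ.Sat V (update (update (update v 0 a) 1 b) 2 c) := by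
    intro n c
    simp only [sat_bex, sat_and, sat_eq, eval_sc, eval_prT, eval_var, eval_zero, eval_one, eval_add, eval_mul, lt_succ h, key ψ hz2]
    simp only [update_of_ne e0, update_of_ne e1, update_of_ne e2, update_self,
      update_of_ne (show (0 : ℕ) ≠ 1 by decide)]
    constructor
    · rintro ⟨a, _, b, _, he, hs⟩; exact ⟨a, b, he, hs⟩
    · rintro ⟨a, b, rfl, hs⟩
      exact ⟨a, le_pr_left _ _, b, le_pr_right h _ _, rfl, hs⟩
  have hsig : ∀ {χ : Fm}, Sigma00 χ → Sigma00 (Fm.bex 0 (sc (.var z)) (Fm.bex 1 (sc (.var z))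
      (Fm.and (.eq (.var z) (prT (.var 0) (.var 1))) χ))) := by
    intro χ hχ
    refine Sigma00.bex' ?_ (Sigma00.bex' ?_ (Sigma00.and' (.eq _ _) hχ))
    · simp only [sc, has_var, has_zero, has_one, has_add, has_mul, or_false]; exact e0
    · simp only [sc, has_var, has_zero, has_one, has_add, has_mul, or_false]; exact e1
  refine ⟨_, h.comprehension _ _ (hsig hφ) (hsig hψ) z 2 2 v V hV ?_, ?_⟩
  · intro n
    simp only [hmemφ, hmemψ]
    constructor
    · rintro ⟨c, a, b, rfl, hc⟩ c'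
      exact ⟨a, b, rfl, (hiff a b).1 ⟨c, hc⟩ c'⟩
    · intro hall
      obtain ⟨a, b, rfl, _⟩ := hall 0
      obtain ⟨c, hc⟩ := (hiff a b).2 (fun c => by
        obtain ⟨a', b', he, hc⟩ := hall c
        obtain ⟨rfl, rfl⟩ := (pr_inj h).1 he
        exact hc)
      exact ⟨c, a, b, rfl, hc⟩
  · intro a b
    simp only [Set.mem_ofPred_eq, hmemφ]
    constructor
    · rintro ⟨c, a', b', he, hc⟩
      obtain ⟨rfl, rfl⟩ := (pr_inj h).1 he
      exact ⟨c, hc⟩
    · rintro ⟨c, hc⟩
      exact ⟨c, a, b, rfl, hc⟩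

/-- collection for a set of pairs that is monotone in the second coordinate -/
theorem bounding (h : RCAStar M S) {A : Set M} (hA : A ∈ S)
    (B : M) (hex : ∀ m < B, ∃ x, pr m x ∈ A) :
    ∃ y, ∀ m < B, ∃ x ≤ y, pr m x ∈ A := by
  -- `D (m, m')`: the first witness of `m'` is at most the first witness of `m`
  have sφ : Sigma00 (Fm.and (Fm.and (.lt (.var 0) (.var 3)) (.lt (.var 1) (.var 3)))
      (Fm.and (.mem (prT (.var 1) (.var 2)) 0)
      (Fm.ball 4 (.var 2) (Fm.neg (.mem (prT (.var 0) (.var 4)) 0))))) :=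
    Sigma00.and' (Sigma00.and' (.lt _ _) (.lt _ _)) (Sigma00.and' (.mem _ _)
      (Sigma00.ball' (by simp [has_var, has_zero, has_one, has_add, has_mul]) (Sigma00.neg' (.mem _ _))))
  have sψ : Sigma00 (Fm.and (Fm.and (.lt (.var 0) (.var 3)) (.lt (.var 1) (.var 3)))
      (.imp (.mem (prT (.var 0) (.var 2)) 0)
      (Fm.bex 4 (sc (.var 2)) (.mem (prT (.var 1) (.var 4)) 0)))) :=
    Sigma00.and' (Sigma00.and' (.lt _ _) (.lt _ _)) (.imp _ _ (.mem _ _)
      (Sigma00.bex' (by simp [sc, has_var, has_zero, has_one, has_add, has_mul]) (.mem _ _)))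
  have satφ : ∀ a b c, (Fm.and (Fm.and (.lt (.var 0) (.var 3)) (.lt (.var 1) (.var 3)))
      (Fm.and (.mem (prT (.var 1) (.var 2)) 0)
      (Fm.ball 4 (.var 2) (Fm.neg (.mem (prT (.var 0) (.var 4)) 0))))).Sat (fun _ => A)
      (update (update (update (val [0, 0, 0, B]) 0 a) 1 b) 2 c) ↔
      (a < B ∧ b < B) ∧ pr b c ∈ A ∧ ∀ d < c, pr a d ∉ A := by
    intro a b c
    simp only [sat_and, sat_mem, sat_lt, sat_ball, sat_neg, eval_prT, eval_var, eval_zero, eval_one, eval_add, eval_mul]
    simp only [update_apply]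
    simp [val]
  have satψ : ∀ a b c, (Fm.and (Fm.and (.lt (.var 0) (.var 3)) (.lt (.var 1) (.var 3)))
      (.imp (.mem (prT (.var 0) (.var 2)) 0)
      (Fm.bex 4 (sc (.var 2)) (.mem (prT (.var 1) (.var 4)) 0)))).Sat (fun _ => A)
      (update (update (update (val [0, 0, 0, B]) 0 a) 1 b) 2 c) ↔
      (a < B ∧ b < B) ∧ (pr a c ∈ A → ∃ d ≤ c, pr b d ∈ A) := by
    intro a b c
    simp only [sat_and, sat_mem, sat_lt, sat_bex, sat_imp, eval_prT, eval_var, eval_zero, eval_one, eval_add, eval_mul, eval_sc]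
    simp only [update_apply, lt_succ h]
    simp [val]
  obtain ⟨D, hD, hDm⟩ := comp2D h sφ sψ (val [0, 0, 0, B]) (V := fun _ => A) (fun _ => hA) (by
    intro a b
    simp only [satφ, satψ]
    constructor
    · rintro ⟨c, hab, hbc, hc⟩ c'
      refine ⟨hab, fun hac' => ⟨c, ?_, hbc⟩⟩
      by_contra hcon
      exact hc c' (not_le.mp hcon) hac'
    · intro hall
      have hab := (hall 0).1
      obtain ⟨x, hx⟩ := hex a hab.1
      obtain ⟨c0, hc0, hc0'⟩ := set_least h (fiber h hA a) (a := x) hx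
      obtain ⟨d, hd, hbd⟩ := (hall c0).2 hc0
      exact ⟨d, hab, hbd, fun d' hd' => hc0' d' (lt_of_lt_of_le hd' hd)⟩)
  simp only [satφ] at hDm
  -- a `D`-maximal element of `[0, k)` exists for every `0 < k ≤ B`
  have hK := comp0 h (φ := .imp (.lt (.var 0) (.var 1)) (Fm.bex 2 (sc (.var 0))
      (Fm.ball 3 (sc (.var 0)) (.mem (prT (.var 2) (.var 3)) 0))))
    (.imp _ _ (.lt _ _) (Sigma00.bex' (by simp [sc, has_var, has_zero, has_one, has_add, has_mul])
      (Sigma00.ball' (by simp [sc, has_var, has_zero, has_one, has_add, has_mul]) (.mem _ _)))) 0 (val [0, B])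
    (V := fun _ => D) (fun _ => hD)
  have hKm : ∀ k, k ∈ {a | (Fm.imp (.lt (.var 0) (.var 1)) (Fm.bex 2 (sc (.var 0))
      (Fm.ball 3 (sc (.var 0)) (.mem (prT (.var 2) (.var 3)) 0)))).Sat (fun _ => D)
      (update (val [0, B]) 0 a)} ↔ (k < B → ∃ m ≤ k, ∀ m' ≤ k, pr m m' ∈ D) := by
    intro k
    simp only [Set.mem_ofPred_eq, sat_imp, sat_lt, sat_bex, sat_ball, sat_mem, eval_prT, eval_sc,
      eval_var, eval_zero, eval_one, eval_add, eval_mul, update_apply, lt_succ h]
    simp [val]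
  -- reflexivity and totality of `D`
  have wit : ∀ m < B, ∃ x, pr m x ∈ A ∧ ∀ d < x, pr m d ∉ A := by
    intro m hm
    obtain ⟨x, hx⟩ := hex m hm
    obtain ⟨c0, hc0, hc0'⟩ := set_least h (fiber h hA m) (a := x) hx
    exact ⟨c0, hc0, hc0'⟩
  choose! w hw1 hw2 using wit
  have hDw : ∀ m < B, ∀ m' < B, (pr m m' ∈ D ↔ w m' ≤ w m) := by
    intro m hm m' hm'
    rw [hDm]
    constructor
    · rintro ⟨c, _, hc, hc'⟩
      have h1 : w m' ≤ c := by
        by_contra hcon; exact hw2 m' hm' c (not_le.mp hcon) hc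
      have h2 : c ≤ w m := by
        by_contra hcon; exact hc' _ (not_le.mp hcon) (hw1 m hm)
      exact h1.trans h2
    · intro hle
      exact ⟨w m', ⟨hm, hm'⟩, hw1 m' hm', fun d hd => hw2 m hm d (lt_of_lt_of_le hd hle)⟩
  have hall := set_ind h hK ((hKm 0).2 (by
      intro h0
      refine ⟨0, le_rfl, fun m' hm' => ?_⟩
      obtain rfl : m' = 0 := le_antisymm hm' zero_le
      exact (hDw 0 h0 0 h0).2 le_rfl)) (by
    intro k hk
    rw [hKm] at hk ⊢
    intro hkB
    have hkB' : k < B := lt_of_le_of_lt le_self_add hkB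
    obtain ⟨m, hm, hmax⟩ := hk hkB'
    have hmB : m < B := lt_of_le_of_lt hm hkB'
    rcases le_total (w m) (w (k + 1)) with hle | hle
    · refine ⟨k + 1, le_rfl, fun m' hm' => ?_⟩
      have hm'B : m' < B := lt_of_le_of_lt hm' hkB
      rw [hDw _ hkB _ hm'B]
      rcases hm'.lt_or_eq with hlt | rfl
      · exact ((hDw _ hmB _ hm'B).1 (hmax m' ((lt_succ h).1 hlt))).trans hle
      · exact le_rfl
    · refine ⟨m, hm.trans le_self_add, fun m' hm' => ?_⟩
      have hm'B : m' < B := lt_of_le_of_lt hm' hkB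
      rcases hm'.lt_or_eq with hlt | rfl
      · exact hmax m' ((lt_succ h).1 hlt)
      · exact (hDw _ hmB _ hm'B).2 hle)
  rcases zero_or_succ h B with rfl | ⟨b, rfl⟩
  · exact ⟨0, fun m hm => absurd hm (not_lt.mpr zero_le)⟩
  · obtain ⟨m, hm, hmax⟩ := (hKm b).1 (hall b) ((lt_succ h).2 le_rfl)
    refine ⟨w m, fun m' hm' => ⟨w m', ?_, hw1 m' hm'⟩⟩
    exact (hDw _ ((lt_succ h).2 hm) _ hm').1 (hmax m' ((lt_succ h).1 hm'))

end bounding

section main
variable {M : Type} [CommSemiring M] [LinearOrder M] [IsStrictOrderedRing M]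
  [CanonicallyOrderedAdd M] {S : Set (Set M)}

/-- least element of a set in `S` above a given element -/
theorem next_mem (h : RCAStar M S) {C : Set M} (hC : C ∈ S) {a c : M} (hc : c ∈ C) (hac : a < c) :
    ∃ d ∈ C, a < d ∧ ∀ e, a < e → e < d → e ∉ C := by
  have hA := comp0 h (φ := Fm.and (.mem (.var 0) 0) (.lt (.var 1) (.var 0)))
    (Sigma00.and' (.mem _ _) (.lt _ _)) 0 (val [0, a]) (V := fun _ => C) (fun _ => hC)
  have hAm : ∀ x, x ∈ {b | (Fm.and (.mem (.var 0) 0) (.lt (.var 1) (.var 0))).Sat (fun _ => C)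
      (update (val [0, a]) 0 b)} ↔ x ∈ C ∧ a < x := by
    intro x
    simp [eval_var, eval_zero, eval_one, eval_add, eval_mul, val]
  obtain ⟨d, hd, hd'⟩ := set_least h hA ((hAm c).2 ⟨hc, hac⟩)
  rw [hAm] at hd
  exact ⟨d, hd.1, hd.2, fun e he1 he2 he3 => hd' e he2 ((hAm e).2 ⟨he3, he1⟩)⟩

/-- The heart of the matter: a bounded nondecreasing function without maximum, whose graph is in
`S`, contradicts the cohesiveness principle. -/
theorem no_bounded_climb (h : RCAStar M S) (hcoh : COH M S) {H : Set M} (hH : H ∈ S)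
    {g : M → M} (hg : ∀ z i, pr z i ∈ H ↔ i = g z) (hmono : ∀ z z', z ≤ z' → g z ≤ g z') {b : M}
    (hb : ∀ z, g z ≤ b) (hunb : ∀ z, ∃ z', g z < g z') : False := by
  obtain ⟨f, f0, fs, fS⟩ := h.exp
  obtain ⟨E, hE, hEm⟩ := bit_set h f0 fs fS
  have hlt_of : ∀ {z z'}, g z < g z' → z < z' := by
    intro z z' hlt
    by_contra hcon
    exact absurd (hmono _ _ (not_lt.mp hcon)) (not_le.mpr hlt)
  -- the sequence of sets
  obtain ⟨R, hR, hRm'⟩ := comp2 h (x := 0) (y := 1) (φ :=
    Fm.bex 3 (sc (.var 2)) (Fm.and (.mem (prT (.var 1) (.var 3)) 0) (.mem (prT (.var 3) (.var 0)) 1)))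
    (Sigma00.bex' (by simp [sc, has_var, has_zero, has_one, has_add, has_mul]) (Sigma00.and' (.mem _ _) (.mem _ _))) (by decide)
    (val [0, 0, b]) (V := vset H [H, E]) (vset_mem hH (by simp [hH, hE]))
  have hRm : ∀ m z, pr m z ∈ R ↔ bit f (g z) m := by
    intro m z
    rw [hRm']
    simp only [sat_bex, sat_and, sat_mem, eval_prT, eval_sc, eval_var, eval_zero, eval_one, eval_add, eval_mul, update_apply, lt_succ h]
    simp [val, vset, hg, hEm]
    exact fun _ => hb z
  clear hRm'
  obtain ⟨C, hC, hCunb, hCcoh⟩ := hcoh R hR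
  -- thinning out: `g` is strictly increasing on `T`
  obtain ⟨T, hT, hTm⟩ : ∃ T ∈ S, ∀ z, z ∈ T ↔ z ∈ C ∧ ∀ y < z, y ∈ C → g y < g z := by
    refine ⟨_, comp0 h (φ := Fm.and (.mem (.var 0) 0) (Fm.ball 1 (.var 0) (.imp (.mem (.var 1) 0)
      (Fm.bex 3 (sc (.var 2)) (Fm.bex 4 (sc (.var 2)) (Fm.and (Fm.and
        (.mem (prT (.var 1) (.var 3)) 1) (.mem (prT (.var 0) (.var 4)) 1))
        (.lt (.var 3) (.var 4)))))))) ?_ 0 (val [0, 0, b]) (V := vset C [C, H])
        (vset_mem hC (by simp [hC, hH])), ?_⟩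
    · exact Sigma00.and' (.mem _ _) (Sigma00.ball' (by simp [has_var, has_zero, has_one, has_add, has_mul]) (.imp _ _ (.mem _ _)
        (Sigma00.bex' (by simp [sc, has_var, has_zero, has_one, has_add, has_mul]) (Sigma00.bex' (by simp [sc, has_var, has_zero, has_one, has_add, has_mul])
          (Sigma00.and' (Sigma00.and' (.mem _ _) (.mem _ _)) (.lt _ _))))))
    · intro z
      simp only [Set.mem_ofPred_eq, sat_bex, sat_and, sat_mem, sat_imp, sat_ball, sat_lt, eval_prT,
        eval_sc, eval_var, eval_zero, eval_one, eval_add, eval_mul, update_apply, lt_succ h]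
      simp only [val, vset]
      simp [hg]
      intro _
      refine forall_congr' fun y => imp_congr_right fun _ => imp_congr_right fun _ => ?_
      exact ⟨fun hh => hh.2.2, fun hh => ⟨hb y, hb z, hh⟩⟩
  have hTC : ∀ z ∈ T, z ∈ C := fun z hz => ((hTm z).1 hz).1
  have hTinc : ∀ y ∈ T, ∀ z ∈ T, y < z → g y < g z := fun y hy z hz hyz =>
    ((hTm z).1 hz).2 y hyz (hTC y hy)
  have hTunb : ∀ a, ∃ c ∈ T, a < c := by
    intro a
    obtain ⟨c0, hc0, hac0⟩ := hCunb a
    obtain ⟨z1, hz1⟩ := hunb c0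
    obtain ⟨c1, hc1, hzc1⟩ := hCunb z1
    have hc01 : g c0 < g c1 := lt_of_lt_of_le hz1 (hmono _ _ hzc1.le)
    obtain ⟨A, hA, hAm⟩ : ∃ A ∈ S, ∀ z, z ∈ A ↔ z ∈ C ∧ g c0 < g z := by
      refine ⟨_, comp0 h (φ := Fm.and (.mem (.var 0) 0) (Fm.bex 3 (sc (.var 2))
        (Fm.and (.mem (prT (.var 0) (.var 3)) 1) (.lt (.var 1) (.var 3))))) ?_ 0
        (val [0, g c0, b]) (V := vset C [C, H]) (vset_mem hC (by simp [hC, hH])), ?_⟩
      · exact Sigma00.and' (.mem _ _) (Sigma00.bex' (by simp [sc, has_var, has_zero, has_one, has_add, has_mul])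
          (Sigma00.and' (.mem _ _) (.lt _ _)))
      · intro z
        simp only [Set.mem_ofPred_eq, sat_bex, sat_and, sat_mem, sat_lt, eval_prT,
          eval_sc, eval_var, eval_zero, eval_one, eval_add, eval_mul, update_apply, lt_succ h]
        simp only [val, vset]
        simp [hg]
        intro _ _
        exact hb z
    obtain ⟨c, hc, hc'⟩ := set_least h hA ((hAm c1).2 ⟨hc1, hc01⟩)
    rw [hAm] at hc
    refine ⟨c, (hTm c).2 ⟨hc.1, fun y hy hyC => ?_⟩, hac0.trans (hlt_of hc.2)⟩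
    by_contra hcon
    exact hc' y hy ((hAm y).2 ⟨hyC, lt_of_lt_of_le hc.2 (not_lt.mp hcon)⟩)
  -- consecutive elements of `T`
  obtain ⟨Q, hQ, hQm⟩ : ∃ Q ∈ S, ∀ z z', pr z z' ∈ Q ↔
      (z < z' ∧ z ∈ T ∧ z' ∈ T) ∧ ∀ y < z', z < y → y ∉ T := by
    obtain ⟨Q, hQ, hQm⟩ := comp2 h (x := 0) (y := 1) (φ :=
      Fm.and (Fm.and (.lt (.var 0) (.var 1)) (Fm.and (.mem (.var 0) 0) (.mem (.var 1) 0)))
        (Fm.ball 2 (.var 1) (.imp (.lt (.var 0) (.var 2)) (Fm.neg (.mem (.var 2) 0)))))
      (Sigma00.and' (Sigma00.and' (.lt _ _) (Sigma00.and' (.mem _ _) (.mem _ _)))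
        (Sigma00.ball' (by simp [has_var, has_zero, has_one, has_add, has_mul]) (.imp _ _ (.lt _ _) (Sigma00.neg' (.mem _ _)))))
      (by decide) (fun _ => 0) (V := fun _ => T) (fun _ => hT)
    refine ⟨Q, hQ, fun z z' => ?_⟩
    rw [hQm]
    simp only [sat_and, sat_mem, sat_lt, sat_imp, sat_ball, sat_neg, eval_var, eval_zero, eval_one, eval_add, eval_mul, update_apply]
    simp
  have hQuniq : ∀ z y z', pr z z' ∈ Q → pr y z' ∈ Q → z = y := by
    intro z y z' h1 h2
    rw [hQm] at h1 h2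
    rcases lt_trichotomy z y with hlt | heq | hgt
    · exact absurd h2.1.2.1 (h1.2 y h2.1.1 hlt)
    · exact heq
    · exact absurd h1.1.2.1 (h2.2 z h1.1.1 hgt)
  have hQnext : ∀ a, ∃ z z', a < z ∧ pr z z' ∈ Q := by
    intro a
    obtain ⟨z, hz, haz⟩ := hTunb a
    obtain ⟨c, hc, hzc⟩ := hTunb z
    obtain ⟨z', hz', hzz', hno⟩ := next_mem h hT hc hzc
    exact ⟨z, z', haz, (hQm _ _).2 ⟨⟨hzz', hz, hz'⟩, fun y hy hzy => hno y hzy hy⟩⟩
  -- no index alternates forever
  have hfail : ∀ m, ∃ z z', pr z z' ∈ Q ∧ (pr m z ∈ R ↔ pr m z' ∈ R) := by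
    intro m
    rcases hCcoh m with ⟨k, hk⟩ | ⟨k, hk⟩
    · obtain ⟨z, z', hkz, hQz⟩ := hQnext k
      have := (hQm _ _).1 hQz
      exact ⟨z, z', hQz, iff_of_true (hk z (hTC z this.1.2.1) hkz)
        (hk z' (hTC z' this.1.2.2) (hkz.trans this.1.1))⟩
    · obtain ⟨z, z', hkz, hQz⟩ := hQnext k
      have := (hQm _ _).1 hQz
      exact ⟨z, z', hQz, iff_of_false (hk z (hTC z this.1.2.1) hkz)
        (hk z' (hTC z' this.1.2.2) (hkz.trans this.1.1))⟩
  -- collect the failures
  obtain ⟨L, hL, hLm⟩ : ∃ L ∈ S, ∀ m x, pr m x ∈ L ↔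
      ∃ z' < x, ∃ z < z', pr z z' ∈ Q ∧ (pr m z ∈ R ↔ pr m z' ∈ R) := by
    obtain ⟨L, hL, hLm⟩ := comp2 h (x := 0) (y := 1) (φ :=
      Fm.bex 2 (.var 1) (Fm.bex 3 (.var 2) (Fm.and (.mem (prT (.var 3) (.var 2)) 0)
        (Fm.iff (.mem (prT (.var 0) (.var 3)) 1) (.mem (prT (.var 0) (.var 2)) 1)))))
      (Sigma00.bex' (by simp [has_var, has_zero, has_one, has_add, has_mul]) (Sigma00.bex' (by simp [has_var, has_zero, has_one, has_add, has_mul]) (Sigma00.and' (.mem _ _)
        (Sigma00.iff' (.mem _ _) (.mem _ _)))))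
      (by decide) (fun _ => 0) (V := vset Q [Q, R]) (vset_mem hQ (by simp [hQ, hR]))
    refine ⟨L, hL, fun m x => ?_⟩
    rw [hLm]
    simp only [sat_and, sat_mem, sat_iff, sat_bex, eval_var, eval_zero, eval_one, eval_add, eval_mul, eval_prT, update_apply]
    simp [vset]
  obtain ⟨y, hy⟩ := bounding h hL (f (b + 1)) (fun m _ => by
    obtain ⟨z, z', hQz, hz⟩ := hfail m
    exact ⟨z' + 1, (hLm _ _).2 ⟨z', (lt_succ h).2 le_rfl, z, ((hQm _ _).1 hQz).1.1, hQz, hz⟩⟩)
  -- an alternating index up to `y`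
  obtain ⟨K, hK, hKm⟩ : ∃ K ∈ S, ∀ k, k ∈ K ↔ (k ≤ b + 1 → ∃ m < f (b + 1), m < f k ∧
      ∀ z' < y, ∀ z < z', pr z z' ∈ Q → g z' < k → ¬ (pr m z ∈ R ↔ pr m z' ∈ R)) := by
    refine ⟨_, compFun h (φ := .imp (.lt (.var 0) (sc (.var 4))) (Fm.bex 5 (.var 3) (Fm.and
      (.lt (.var 5) (.var 1)) (Fm.ball 6 (.var 2) (Fm.ball 7 (.var 6) (.imp
        (.mem (prT (.var 7) (.var 6)) 0) (.imp (Fm.bex 8 (.var 0) (.mem (prT (.var 6) (.var 8)) 1))
          (Fm.neg (Fm.iff (.mem (prT (.var 5) (.var 7)) 2) (.mem (prT (.var 5) (.var 6)) 2)))))))))) ?_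
      (x := 0) (y := 1) (by decide) (val [0, 0, y, f (b + 1), b + 1])
      (V := vset Q [Q, H, R, {n | ∃ a, n = pr a (f a)}])
      (vset_mem hQ (by simp only [List.mem_cons, List.not_mem_nil, or_false]; rintro B (rfl | rfl | rfl | rfl) <;> assumption))
      (X := 3) (g := f) ?_, ?_⟩
    · exact .imp _ _ (.lt _ _) (Sigma00.bex' (by simp [has_var, has_zero, has_one, has_add, has_mul]) (Sigma00.and' (.lt _ _)
        (Sigma00.ball' (by simp [has_var, has_zero, has_one, has_add, has_mul]) (Sigma00.ball' (by simp [has_var, has_zero, has_one, has_add, has_mul]) (.imp _ _ (.mem _ _)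
        (.imp _ _ (Sigma00.bex' (by simp [has_var, has_zero, has_one, has_add, has_mul]) (.mem _ _))
          (Sigma00.neg' (Sigma00.iff' (.mem _ _) (.mem _ _)))))))))
    · simpa [vset] using graph_mem (f := f) h
    · intro k
      simp only [Set.mem_ofPred_eq, sat_imp, sat_lt, sat_bex, sat_ball, sat_and, sat_mem, sat_neg,
        sat_iff, eval_prT, eval_sc, eval_var, eval_zero, eval_one, eval_add, eval_mul, update_apply, lt_succ h]
      simp only [val, vset]
      simp [hg]
  have hall := set_ind h hK ((hKm 0).2 (by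
      intro _
      have hp := exp_pos h f0 fs fS (b + 1)
      exact ⟨0, hp, by rw [f0]; exact one_pos, fun z' _ z _ _ hz => absurd hz (not_lt.mpr zero_le)⟩))
    (by
      intro k hk
      rw [hKm] at hk ⊢
      intro hkb
      obtain ⟨m, hmB, hmk, hm⟩ := hk (le_self_add.trans hkb)
      have hfk : f (k + 1) ≤ f (b + 1) := exp_mono h f0 fs fS _ _ hkb
      have hposk := exp_pos h f0 fs fS k
      by_cases hex : ∃ z' < y, ∃ z < z', pr z z' ∈ Q ∧ g z' = k
      · obtain ⟨z0', hz0'y, z0, hz0, hQ0, hgk⟩ := hex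
        have hQ0' := (hQm _ _).1 hQ0
        have hg0 : g z0 < k := by
          rw [← hgk]; exact hTinc _ hQ0'.1.2.1 _ hQ0'.1.2.2 hQ0'.1.1
        -- any pair whose upper element has level `k` is this pair
        have huniq : ∀ z' z, pr z z' ∈ Q → g z' = k → z' = z0' ∧ z = z0 := by
          intro z' z hz hgz
          have hz' := (hQm _ _).1 hz
          have e1 : z' = z0' := by
            rcases lt_trichotomy z' z0' with hlt | heq | hgt
            · have := hTinc _ hz'.1.2.2 _ hQ0'.1.2.2 hlt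
              rw [hgz, hgk] at this; exact absurd this (lt_irrefl _)
            · exact heq
            · have := hTinc _ hQ0'.1.2.2 _ hz'.1.2.2 hgt
              rw [hgz, hgk] at this; exact absurd this (lt_irrefl _)
          subst e1
          exact ⟨rfl, hQuniq _ _ _ hz hQ0⟩
        by_cases hbit : bit f (g z0) m
        · -- keep `m`
          refine ⟨m, hmB, hmk.trans_le (by rw [fs]; exact le_self_add), ?_⟩
          intro z' hz'y z hzz' hzQ hgz'
          rcases ((lt_succ h).1 hgz').lt_or_eq with hlt | heq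
          · exact hm z' hz'y z hzz' hzQ hlt
          · obtain ⟨rfl, rfl⟩ := huniq z' z hzQ heq
            rw [hRm, hRm, heq]
            intro hiff
            exact bit_self_lt hmk (hiff.1 hbit)
        · -- add `2^k`
          refine ⟨m + f k, ?_, ?_, ?_⟩
          · refine lt_of_lt_of_le ?_ hfk
            rw [fs]; gcongr
          · rw [fs]; gcongr
          intro z' hz'y z hzz' hzQ hgz'
          have hzQ' := (hQm _ _).1 hzQ
          have hgzz' : g z < g z' := hTinc _ hzQ'.1.2.1 _ hzQ'.1.2.2 hzQ'.1.1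
          rcases ((lt_succ h).1 hgz').lt_or_eq with hlt | heq
          · have := hm z' hz'y z hzz' hzQ hlt
            rw [hRm, hRm] at this ⊢
            rwa [bit_add h f0 fs fS hlt, bit_add h f0 fs fS (hgzz'.trans hlt)]
          · obtain ⟨rfl, rfl⟩ := huniq z' z hzQ heq
            rw [hRm, hRm, heq, bit_add h f0 fs fS hg0]
            intro hiff
            exact hbit (hiff.2 (bit_self_add hmk))
      · refine ⟨m, hmB, hmk.trans_le (by rw [fs]; exact le_self_add), ?_⟩
        intro z' hz'y z hzz' hzQ hgz'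
        rcases ((lt_succ h).1 hgz').lt_or_eq with hlt | heq
        · exact hm z' hz'y z hzz' hzQ hlt
        · exact absurd ⟨z', hz'y, z, hzz', hzQ, heq⟩ hex)
  obtain ⟨m, hmB, _, hm⟩ := (hKm (b + 1)).1 (hall (b + 1)) le_rfl
  obtain ⟨x, hxy, hx⟩ := hy m hmB
  obtain ⟨z', hz'x, z, hzz', hzQ, hz⟩ := (hLm _ _).1 hx
  exact hm z' (lt_of_lt_of_le hz'x hxy) z hzz' hzQ ((lt_succ h).2 (hb z')) hz

end main

section ind
variable {M : Type} [CommSemiring M] [LinearOrder M] [IsStrictOrderedRing M]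
  [CanonicallyOrderedAdd M] {S : Set (Set M)}

theorem coh_isigma (h : RCAStar M S) (hcoh : COH M S) : ISigma01 M S := by
  intro φ hφ x y v V hV h0 hs
  rcases eq_or_ne x y with rfl | hxy
  · intro a
    simpa using h0
  obtain ⟨F, hF, hFm⟩ := comp2 h hφ hxy v hV
  simp only [← hFm] at h0 hs ⊢
  by_contra hcon
  push Not at hcon
  obtain ⟨b, hb⟩ := hcon
  obtain ⟨G, hG, hGm⟩ : ∃ G ∈ S, ∀ z i, pr z i ∈ G ↔ ∀ j < i, ∃ w < z, pr j w ∈ F := by
    obtain ⟨G, hG, hGm⟩ := comp2 h (x := 0) (y := 1) (φ :=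
      Fm.ball 2 (.var 1) (Fm.bex 3 (.var 0) (.mem (prT (.var 2) (.var 3)) 0)))
      (Sigma00.ball' (by simp [has_var, has_zero, has_one, has_add, has_mul]) (Sigma00.bex' (by simp [has_var, has_zero, has_one, has_add, has_mul]) (.mem _ _)))
      (by decide) (fun _ => 0) (V := fun _ => F) (fun _ => hF)
    refine ⟨G, hG, fun z i => ?_⟩
    rw [hGm]
    simp only [sat_ball, sat_bex, sat_mem, eval_prT, eval_var, eval_zero, eval_one, eval_add, eval_mul, update_apply]
    simp
  have hanti : ∀ z i j, j ≤ i → pr z i ∈ G → pr z j ∈ G := by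
    intro z i j hji hi
    rw [hGm] at hi ⊢
    exact fun k hk => hi k (lt_of_lt_of_le hk hji)
  have hmonoG : ∀ z z' i, z ≤ z' → pr z i ∈ G → pr z' i ∈ G := by
    intro z z' i hz hi
    rw [hGm] at hi ⊢
    intro k hk
    obtain ⟨w, hw, hwF⟩ := hi k hk
    exact ⟨w, lt_of_lt_of_le hw hz, hwF⟩
  have hG0 : ∀ z, pr z 0 ∈ G := fun z => (hGm _ _).2 fun j hj => absurd hj (not_lt.mpr zero_le)
  have hGb : ∀ z, pr z (b + 1) ∉ G := by
    intro z hz
    rw [hGm] at hz
    obtain ⟨w, _, hw⟩ := hz b ((lt_succ h).2 le_rfl)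
    exact hb w hw
  have hex : ∀ z, ∃ i, pr z i ∈ G ∧ pr z (i + 1) ∉ G := by
    intro z
    by_contra hcon
    push Not at hcon
    exact hGb z (set_ind h (fiber h hG z) (hG0 z) hcon (b + 1))
  choose g hg1 hg2 using hex
  have hgG : ∀ z i, pr z i ∈ G ↔ i ≤ g z := by
    intro z i
    constructor
    · intro hi
      by_contra hlt
      exact hg2 z (hanti z i _ (h.discrete _ _ (not_le.mp hlt)) hi)
    · intro hi
      exact hanti z _ _ hi (hg1 z)
  obtain ⟨H, hH, hHm⟩ : ∃ H ∈ S, ∀ z i, pr z i ∈ H ↔ i = g z := by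
    obtain ⟨H, hH, hHm⟩ := comp2 h (x := 0) (y := 1) (φ :=
      Fm.and (.mem (prT (.var 0) (.var 1)) 0) (Fm.neg (.mem (prT (.var 0) (sc (.var 1))) 0)))
      (Sigma00.and' (.mem _ _) (Sigma00.neg' (.mem _ _)))
      (by decide) (fun _ => 0) (V := fun _ => G) (fun _ => hG)
    refine ⟨H, hH, fun z i => ?_⟩
    rw [hHm]
    simp only [sat_and, sat_neg, sat_mem, eval_prT, eval_sc, eval_var, eval_zero, eval_one, eval_add, eval_mul, update_apply]
    simp only [if_true, hgG, zero_ne_one, if_false]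
    constructor
    · rintro ⟨h1, h2⟩
      exact le_antisymm h1 ((lt_succ h).1 (not_le.mp h2))
    · rintro rfl
      exact ⟨le_rfl, not_le.mpr ((lt_succ h).2 le_rfl)⟩
  refine no_bounded_climb h hcoh hH hHm ?_ (b := b) ?_ ?_
  · intro z z' hz
    exact (hgG z' (g z)).1 (hmonoG z z' _ hz (hg1 z))
  · intro z
    by_contra hcon
    exact hGb z ((hgG _ _).2 (h.discrete _ _ (not_le.mp hcon)))
  · intro z
    -- the value `g z` is witnessed in `F`
    have hw : ∃ w, pr (g z) w ∈ F := by
      rcases zero_or_succ h (g z) with h0' | ⟨j, hj⟩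
      · rw [h0']; exact h0
      · rw [hj]
        apply hs
        have := (hGm z (g z)).1 (hg1 z) j (by rw [hj]; exact (lt_succ h).2 le_rfl)
        obtain ⟨w, _, hw⟩ := this
        exact ⟨w, hw⟩
    obtain ⟨w, hw⟩ := hw
    refine ⟨max z (w + 1), ?_⟩
    have : pr (max z (w + 1)) (g z + 1) ∈ G := by
      rw [hGm]
      intro j hj
      rcases ((lt_succ h).1 hj).lt_or_eq with hlt | rfl
      · obtain ⟨u, hu, huF⟩ := (hGm z (g z)).1 (hg1 z) j hlt
        exact ⟨u, lt_of_lt_of_le hu (le_max_left _ _), huF⟩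
      · exact ⟨w, lt_of_lt_of_le ((lt_succ h).2 le_rfl) (le_max_right _ _), hw⟩
    exact lt_of_lt_of_le ((lt_succ h).2 le_rfl) ((hgG _ _).1 this)

end ind

/-- the ultrapower of the natural numbers -/
abbrev NS : Type := (hyperfilter ℕ : Filter ℕ).Germ ℕ

/-- iterated powers of two -/
def tw : ℕ → ℕ → ℕ
  | 0, n => n
  | (k + 1), n => 2 ^ tw k n

noncomputable def TW (k : ℕ) : NS := ((fun n => tw k n : ℕ → ℕ) : NS)

theorem TW_lt (k : ℕ) : TW k < TW (k + 1) := by
  unfold TW
  rw [Germ.coe_lt]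
  exact Eventually.of_forall fun n => Nat.lt_two_pow_self

theorem tw_le (k n : ℕ) : tw k n ≤ tw (k + 1) n := Nat.lt_two_pow_self.le

theorem tw_mono (n : ℕ) : Monotone fun k => tw k n := monotone_nat_of_le_succ fun k => tw_le k n

theorem two_mul_le_two_pow (n : ℕ) : n + n ≤ 2 ^ n := by
  induction n with
  | zero => simp
  | succ n ih =>
    rw [pow_succ]
    rcases Nat.eq_zero_or_pos n with rfl | hn
    · simp
    · have : n + 1 ≤ n + n := by omega
      omega

theorem TW_add (k : ℕ) : TW k + TW k ≤ TW (k + 1) := by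
  unfold TW
  rw [← Germ.coe_add, Germ.coe_le]
  exact Eventually.of_forall fun n => two_mul_le_two_pow _

theorem TW_mul (k : ℕ) : TW k * TW k ≤ TW (k + 2) := by
  unfold TW
  rw [← Germ.coe_mul, Germ.coe_le]
  refine Eventually.of_forall fun n => ?_
  show tw k n * tw k n ≤ 2 ^ (2 ^ tw k n)
  calc tw k n * tw k n ≤ 2 ^ tw k n * 2 ^ tw k n :=
        Nat.mul_le_mul Nat.lt_two_pow_self.le Nat.lt_two_pow_self.le
    _ = 2 ^ (tw k n + tw k n) := (pow_add _ _ _).symm
    _ ≤ 2 ^ (2 ^ tw k n) := Nat.pow_le_pow_right (by norm_num) (two_mul_le_two_pow _)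

theorem TW_mono {j k : ℕ} (h : j ≤ k) : TW j ≤ TW k := by
  unfold TW
  rw [Germ.coe_le]
  exact Eventually.of_forall fun n => tw_mono n h

theorem NS_zero_le (x : NS) : 0 ≤ x := zero_le

/-- the initial segment of the ultrapower below the iterated powers of the diagonal element -/
noncomputable def cut : Subsemiring NS where
  carrier := {x | ∃ k, x < TW k}
  zero_mem' := ⟨1, lt_of_le_of_lt (NS_zero_le _) (TW_lt 0)⟩
  one_mem' := by
    refine ⟨2, ?_⟩
    unfold TW
    rw [← Germ.coe_one, Germ.coe_lt]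
    refine Eventually.of_forall fun n => ?_
    show 1 < 2 ^ (2 ^ n)
    exact Nat.one_lt_two_pow (by positivity)
  add_mem' := by
    rintro a b ⟨k, hk⟩ ⟨l, hl⟩
    refine ⟨max k l + 1, ?_⟩
    calc a + b < TW k + TW l := add_lt_add hk hl
      _ ≤ TW (max k l) + TW (max k l) :=
        add_le_add (TW_mono (le_max_left _ _)) (TW_mono (le_max_right _ _))
      _ ≤ TW (max k l + 1) := TW_add _
  mul_mem' := by
    rintro a b ⟨k, hk⟩ ⟨l, hl⟩
    refine ⟨max k l + 3, ?_⟩
    have h1 : a ≤ TW (max k l) := (hk.trans_le (TW_mono (le_max_left _ _))).le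
    have h2 : b ≤ TW (max k l) := (hl.trans_le (TW_mono (le_max_right _ _))).le
    calc a * b ≤ TW (max k l) * TW (max k l) := mul_le_mul' h1 h2
      _ ≤ TW (max k l + 2) := TW_mul _
      _ < TW (max k l + 3) := TW_lt _

theorem mem_cut {x : NS} : x ∈ cut ↔ ∃ k, x < TW k := Iff.rfl

theorem cut_lower {x y : NS} (h : x ≤ y) (hy : y ∈ cut) : x ∈ cut := by
  obtain ⟨k, hk⟩ := hy
  exact ⟨k, lt_of_le_of_lt h hk⟩

theorem rep (x : NS) : ∃ u : ℕ → ℕ, x = (u : NS) := by
  induction x using Germ.inductionOn with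
  | _ f => exact ⟨f, rfl⟩

instance : CanonicallyOrderedAdd cut where
  exists_add_of_le := by
    rintro ⟨a, ha⟩ ⟨b, hb⟩ hab
    have hab' : a ≤ b := hab
    obtain ⟨c, hc⟩ := exists_add_of_le hab'
    refine ⟨⟨c, cut_lower (by rw [hc]; exact le_add_self) hb⟩, ?_⟩
    exact Subtype.ext hc
  le_add_self := by
    rintro ⟨a, ha⟩ ⟨b, hb⟩
    show a ≤ b + a
    exact le_add_self
  le_self_add := by
    rintro ⟨a, ha⟩ ⟨b, hb⟩
    show a ≤ a + b
    exact le_self_add

/-- internal subsets of the cut -/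
def intSet (W : ℕ → Set ℕ) : Set cut :=
  {x | ∃ u : ℕ → ℕ, (x : NS) = (u : NS) ∧ ∀ᶠ k in (hyperfilter ℕ : Filter ℕ), u k ∈ W k}

theorem mem_intSet {W : ℕ → Set ℕ} {x : cut} {u : ℕ → ℕ} (hu : (x : NS) = (u : NS)) :
    x ∈ intSet W ↔ ∀ᶠ k in (hyperfilter ℕ : Filter ℕ), u k ∈ W k := by
  constructor
  · rintro ⟨w, hw, h⟩
    rw [hu] at hw
    have := Germ.coe_eq.1 hw
    filter_upwards [this, h] with k h1 h2
    rw [h1]; exact h2
  · intro h; exact ⟨u, hu, h⟩

def IS : Set (Set cut) := Set.range intSet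

theorem eval_rep {v : ℕ → cut} {u : ℕ → ℕ → ℕ} (hu : ∀ i, (v i : NS) = (u i : NS)) :
    ∀ t : Tm, ((t.eval v : cut) : NS) = ((fun k => t.eval fun i => u i k : ℕ → ℕ) : NS)
  | .var n => hu n
  | .zero => rfl
  | .one => rfl
  | .add s t => by
    have h1 := eval_rep hu s
    have h2 := eval_rep hu t
    show ((s.eval v : cut) : NS) + ((t.eval v : cut) : NS) = _
    rw [h1, h2]; rfl
  | .mul s t => by
    have h1 := eval_rep hu s
    have h2 := eval_rep hu t
    show ((s.eval v : cut) : NS) * ((t.eval v : cut) : NS) = _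
    rw [h1, h2]; rfl

theorem update_rep {v : ℕ → cut} {u : ℕ → ℕ → ℕ} (hu : ∀ i, (v i : NS) = (u i : NS)) (x : ℕ)
    {a : cut} {ua : ℕ → ℕ} (ha : (a : NS) = (ua : NS)) :
    ∀ i, ((update v x a) i : NS) = ((update u x ua i : ℕ → ℕ) : NS) := by
  intro i
  by_cases h : i = x
  · subst h; simpa using ha
  · rw [update_of_ne h, update_of_ne h]; exact hu i

theorem update_rep' (u : ℕ → ℕ → ℕ) (x : ℕ) (ua : ℕ → ℕ) (k : ℕ) :
    (fun i => update u x ua i k) = update (fun i => u i k) x (ua k) := by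
  funext i
  by_cases h : i = x
  · subst h; simp
  · rw [update_of_ne h, update_of_ne h]

theorem los {φ : Fm} (hφ : Sigma00 φ) {V : ℕ → Set cut} {W : ℕ → ℕ → Set ℕ}
    (hV : ∀ i, V i = intSet (W i)) : ∀ {v : ℕ → cut} {u : ℕ → ℕ → ℕ},
    (∀ i, (v i : NS) = (u i : NS)) →
    (φ.Sat V v ↔ ∀ᶠ k in (hyperfilter ℕ : Filter ℕ), φ.Sat (fun i => W i k) (fun i => u i k)) := by
  induction hφ with
  | fls => intro v u hu; simpa using (hyperfilter ℕ).neBot.ne
  | eq s t =>
    intro v u hu
    rw [sat_eq, ← Subtype.coe_inj, eval_rep hu s, eval_rep hu t, Germ.coe_eq]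
    rfl
  | lt s t =>
    intro v u hu
    rw [sat_lt, ← Subtype.coe_lt_coe, eval_rep hu s, eval_rep hu t, Germ.coe_lt]
    rfl
  | mem t X =>
    intro v u hu
    rw [sat_mem, hV, mem_intSet (eval_rep hu t)]
    rfl
  | imp φ ψ _ _ ih1 ih2 =>
    intro v u hu
    rw [sat_imp, ih1 hu, ih2 hu, ← Ultrafilter.eventually_imp]
    rfl
  | ball x t φ hx _ ih =>
    intro v u hu
    simp only [sat_all, sat_imp, sat_lt]
    constructor
    · intro hall
      by_contra hcon
      rw [← Ultrafilter.eventually_not] at hcon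
      have hex : ∀ k, ∃ n, (¬ ∀ a, (Tm.var x).eval (update (fun i => u i k) x a) <
          t.eval (update (fun i => u i k) x a) →
          Fm.Sat (fun i => W i k) φ (update (fun i => u i k) x a)) →
          (n < t.eval (fun i => u i k) ∧
            ¬ Fm.Sat (fun i => W i k) φ (update (fun i => u i k) x n)) := by
        intro k
        by_cases hk : ¬ ∀ a, (Tm.var x).eval (update (fun i => u i k) x a) <
          t.eval (update (fun i => u i k) x a) →
          Fm.Sat (fun i => W i k) φ (update (fun i => u i k) x a)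
        · have hk' := hk
          push Not at hk'
          obtain ⟨n, hn, hn'⟩ := hk'
          refine ⟨n, fun _ => ⟨?_, hn'⟩⟩
          rw [Tm.eval_update hx] at hn
          simpa [eval_var, eval_zero, eval_one, eval_add, eval_mul] using hn
        · exact ⟨0, fun h => absurd h hk⟩
      choose w hw using hex
      have hlt : ((w : ℕ → ℕ) : NS) < ((t.eval v : cut) : NS) := by
        rw [eval_rep hu t, Germ.coe_lt]
        filter_upwards [hcon] with k hk
        exact (hw k hk).1
      let a : cut := ⟨(w : NS), cut_lower hlt.le (t.eval v).2⟩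
      have ha : (a : NS) = (w : NS) := rfl
      have h1 := hall a (by
        rw [Tm.eval_update hx]
        simp only [eval_var, eval_zero, eval_one, eval_add, eval_mul, update_self]
        exact hlt)
      rw [ih (update_rep hu x ha)] at h1
      have h2 : ∀ᶠ k in (hyperfilter ℕ : Filter ℕ), False := by
        filter_upwards [hcon, h1] with k hk h1k
        rw [update_rep'] at h1k
        exact (hw k hk).2 h1k
      exact h2.exists.choose_spec
    · intro hall a ha
      obtain ⟨ua, hua⟩ := rep (a : NS)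
      rw [ih (update_rep hu x hua)]
      rw [Tm.eval_update hx] at ha
      simp only [eval_var, eval_zero, eval_one, eval_add, eval_mul, update_self] at ha
      rw [← Subtype.coe_lt_coe, hua, eval_rep hu t, Germ.coe_lt] at ha
      filter_upwards [hall, ha] with k hk hak
      rw [update_rep']
      refine hk (ua k) ?_
      rw [Tm.eval_update hx]
      simpa [eval_var, eval_zero, eval_one, eval_add, eval_mul] using hak

/-- division of the parameters -/
theorem intSets_rep {V : ℕ → Set cut} (hV : ∀ i, V i ∈ IS) :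
    ∃ W : ℕ → ℕ → Set ℕ, ∀ i, V i = intSet (W i) := by
  choose W hW using hV
  exact ⟨W, fun i => (hW i).symm⟩

theorem val_rep (v : ℕ → cut) : ∃ u : ℕ → ℕ → ℕ, ∀ i, (v i : NS) = (u i : NS) := by
  choose u hu using fun i => rep (v i : NS)
  exact ⟨u, hu⟩

theorem pr_rep {a b : cut} {ua ub : ℕ → ℕ} (ha : (a : NS) = (ua : NS)) (hb : (b : NS) = (ub : NS)) :
    ((pr a b : cut) : NS) = ((fun k => pr (ua k) (ub k) : ℕ → ℕ) : NS) := by
  show (((a : NS) + b) * (a + b) + a) = _
  rw [ha, hb]; rfl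

/-- the exponential function of the cut -/
noncomputable def cexp (x : cut) : cut :=
  ⟨Germ.map (fun n => 2 ^ n) (x : NS), by
    obtain ⟨k, hk⟩ := x.2
    obtain ⟨u, hu⟩ := rep (x : NS)
    refine ⟨k + 1, ?_⟩
    rw [hu] at hk ⊢
    unfold TW at hk ⊢
    rw [Germ.map_coe, Germ.coe_lt] at *
    filter_upwards [hk] with n hn
    exact Nat.pow_lt_pow_right (by norm_num) hn⟩

theorem cexp_rep {x : cut} {u : ℕ → ℕ} (hu : (x : NS) = (u : NS)) :
    ((cexp x : cut) : NS) = ((fun k => 2 ^ u k : ℕ → ℕ) : NS) := by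
  show Germ.map (fun n => 2 ^ n) (x : NS) = _
  rw [hu]; rfl

theorem one_rep : ((1 : cut) : NS) = ((fun _ => 1 : ℕ → ℕ) : NS) := rfl
theorem zero_rep : ((0 : cut) : NS) = ((fun _ => 0 : ℕ → ℕ) : NS) := rfl

theorem add_rep {a b : cut} {ua ub : ℕ → ℕ} (ha : (a : NS) = (ua : NS)) (hb : (b : NS) = (ub : NS)) :
    ((a + b : cut) : NS) = ((fun k => ua k + ub k : ℕ → ℕ) : NS) := by
  show ((a : NS) + b) = _
  rw [ha, hb]; rfl

theorem le_pr_nat (a b : ℕ) : a ≤ pr a b := Nat.le_add_left _ _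

theorem cut_model : RCAStar cut IS where
  discrete := by
    intro a b hab
    obtain ⟨ua, hua⟩ := rep (a : NS)
    obtain ⟨ub, hub⟩ := rep (b : NS)
    rw [← Subtype.coe_lt_coe, hua, hub, Germ.coe_lt] at hab
    rw [← Subtype.coe_le_coe, add_rep hua one_rep, hub, Germ.coe_le]
    exact hab
  exp := by
    refine ⟨cexp, ?_, ?_, ?_⟩
    · apply Subtype.ext
      rw [cexp_rep zero_rep]; rfl
    · intro a
      obtain ⟨ua, hua⟩ := rep (a : NS)
      apply Subtype.ext
      rw [cexp_rep (add_rep hua one_rep), add_rep (cexp_rep hua) (cexp_rep hua)]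
      congr 1
      funext k
      rw [pow_succ]; ring
    · refine ⟨fun _ => {n | ∃ a : ℕ, n = pr a (2 ^ a)}, ?_⟩
      ext x
      obtain ⟨ux, hux⟩ := rep (x : NS)
      rw [mem_intSet hux]
      constructor
      · intro hx
        have hex : ∀ k, ∃ a : ℕ, ux k ∈ {n | ∃ a : ℕ, n = pr a (2 ^ a)} → ux k = pr a (2 ^ a) := by
          intro k
          by_cases hk : ux k ∈ {n | ∃ a : ℕ, n = pr a (2 ^ a)}
          · obtain ⟨a, ha⟩ := hk
            exact ⟨a, fun _ => ha⟩
          · exact ⟨0, fun h => absurd h hk⟩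
        choose w hw using hex
        have hwx : ((w : ℕ → ℕ) : NS) ≤ (x : NS) := by
          rw [hux, Germ.coe_le]
          filter_upwards [hx] with k hk
          rw [hw k hk]; exact le_pr_nat _ _
        refine ⟨⟨(w : NS), cut_lower hwx x.2⟩, ?_⟩
        apply Subtype.ext
        rw [pr_rep (ua := w) (ub := fun k => 2 ^ w k) rfl (cexp_rep rfl), hux, Germ.coe_eq]
        filter_upwards [hx] with k hk
        exact hw k hk
      · rintro ⟨a, rfl⟩
        obtain ⟨ua, hua⟩ := rep (a : NS)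
        rw [pr_rep hua (cexp_rep hua), Germ.coe_eq] at hux
        filter_upwards [hux] with k hk
        exact ⟨ua k, hk.symm⟩
  induction := by
    intro φ hφ x v V hV h0 hs a
    obtain ⟨W, hW⟩ := intSets_rep hV
    obtain ⟨u, hu⟩ := val_rep v
    obtain ⟨ua, hua⟩ := rep (a : NS)
    have hsat : ∀ {b : cut} {ub : ℕ → ℕ}, (b : NS) = (ub : NS) →
        (φ.Sat V (update v x b) ↔ ∀ᶠ k in (hyperfilter ℕ : Filter ℕ),
          φ.Sat (fun i => W i k) (update (fun i => u i k) x (ub k))) := by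
      intro b ub hb
      rw [los hφ hW (update_rep hu x hb)]
      simp only [update_rep']
    rw [hsat hua]
    by_contra hcon
    rw [← Ultrafilter.eventually_not] at hcon
    rw [hsat zero_rep] at h0
    have hex : ∀ k, ∃ n, (φ.Sat (fun i => W i k) (update (fun i => u i k) x 0) ∧
        ¬ φ.Sat (fun i => W i k) (update (fun i => u i k) x (ua k))) →
        n < ua k ∧ φ.Sat (fun i => W i k) (update (fun i => u i k) x n) ∧
        ¬ φ.Sat (fun i => W i k) (update (fun i => u i k) x (n + 1)) := by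
      intro k
      by_cases hk : φ.Sat (fun i => W i k) (update (fun i => u i k) x 0) ∧
        ¬ φ.Sat (fun i => W i k) (update (fun i => u i k) x (ua k))
      · by_contra hno
        push Not at hno
        have : ∀ n, n ≤ ua k → φ.Sat (fun i => W i k) (update (fun i => u i k) x n) := by
          intro n
          induction n with
          | zero => intro _; exact hk.1
          | succ n ih =>
            intro hn
            exact (hno n).2 (by omega) (ih (by omega))
        exact hk.2 (this _ le_rfl)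
      · exact ⟨0, fun h => absurd h hk⟩
    choose w hw using hex
    have hwa : ((w : ℕ → ℕ) : NS) ≤ (a : NS) := by
      rw [hua, Germ.coe_le]
      filter_upwards [h0, hcon] with k h1 h2
      exact (hw k ⟨h1, h2⟩).1.le
    let b : cut := ⟨(w : NS), cut_lower hwa a.2⟩
    have hb : (b : NS) = (w : NS) := rfl
    have h1 := hs b (by
      rw [hsat hb]
      filter_upwards [h0, hcon] with k h1 h2
      exact (hw k ⟨h1, h2⟩).2.1)
    rw [hsat (add_rep hb one_rep)] at h1
    have h2 : ∀ᶠ k in (hyperfilter ℕ : Filter ℕ), False := by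
      filter_upwards [h0, hcon, h1] with k h1 h2 h3
      exact (hw k ⟨h1, h2⟩).2.2 h3
    exact h2.exists.choose_spec
  comprehension := by
    intro φ ψ hφ hψ x y z v V hV hiff
    obtain ⟨W, hW⟩ := intSets_rep hV
    obtain ⟨u, hu⟩ := val_rep v
    have hsat : ∀ {χ : Fm}, Sigma00 χ → ∀ (y : ℕ) {a b : cut} {ua ub : ℕ → ℕ},
        (a : NS) = (ua : NS) → (b : NS) = (ub : NS) →
        (χ.Sat V (update (update v x a) y b) ↔ ∀ᶠ k in (hyperfilter ℕ : Filter ℕ),
          χ.Sat (fun i => W i k) (update (update (fun i => u i k) x (ua k)) y (ub k))) := by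
      intro χ hχ y a b ua ub ha hb
      rw [los hχ hW (update_rep (update_rep hu x ha) y hb)]
      simp only [update_rep']
    refine ⟨fun k => {n | ∃ b, φ.Sat (fun i => W i k) (update (update (fun i => u i k) x n) y b) ∧
      ∀ c < b, ψ.Sat (fun i => W i k) (update (update (fun i => u i k) x n) z c)}, ?_⟩
    ext a
    obtain ⟨ua, hua⟩ := rep (a : NS)
    rw [mem_intSet hua]
    constructor
    · intro hD
      have hex : ∀ k, ∃ b, (ua k ∈ {n | ∃ b, φ.Sat (fun i => W i k)
          (update (update (fun i => u i k) x n) y b) ∧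
          ∀ c < b, ψ.Sat (fun i => W i k) (update (update (fun i => u i k) x n) z c)}) →
          (φ.Sat (fun i => W i k) (update (update (fun i => u i k) x (ua k)) y b) ∧
          ∀ c < b, ψ.Sat (fun i => W i k) (update (update (fun i => u i k) x (ua k)) z c)) := by
        intro k
        by_cases hk : ua k ∈ {n | ∃ b, φ.Sat (fun i => W i k)
          (update (update (fun i => u i k) x n) y b) ∧
          ∀ c < b, ψ.Sat (fun i => W i k) (update (update (fun i => u i k) x n) z c)}
        · obtain ⟨b, hb⟩ := hk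
          exact ⟨b, fun _ => hb⟩
        · exact ⟨0, fun h => absurd h hk⟩
      choose w hw using hex
      by_contra hcon
      have hcon' : ¬ ∀ c, ψ.Sat V (update (update v x a) z c) := fun h => hcon ((hiff a).2 h)
      push Not at hcon'
      obtain ⟨c, hc⟩ := hcon'
      obtain ⟨uc, huc⟩ := rep (c : NS)
      rw [hsat hψ z hua huc, ← Ultrafilter.eventually_not] at hc
      have hwc : ((w : ℕ → ℕ) : NS) ≤ (c : NS) := by
        rw [huc, Germ.coe_le]
        filter_upwards [hD, hc] with k h1 h2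
        by_contra h3
        exact h2 ((hw k h1).2 _ (not_le.mp h3))
      apply hcon
      refine ⟨⟨(w : NS), cut_lower hwc c.2⟩, ?_⟩
      rw [hsat hφ y hua (ub := w) rfl]
      filter_upwards [hD] with k h1
      exact (hw k h1).1
    · intro hex
      have hall := (hiff a).1 hex
      obtain ⟨b, hb⟩ := hex
      obtain ⟨ub, hub⟩ := rep (b : NS)
      rw [hsat hφ y hua hub] at hb
      by_contra hcon
      rw [← Ultrafilter.eventually_not] at hcon
      have hex : ∀ k, ∃ c, (φ.Sat (fun i => W i k) (update (update (fun i => u i k) x (ua k)) y (ub k)) ∧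
          ¬ (ua k ∈ {n | ∃ b, φ.Sat (fun i => W i k)
          (update (update (fun i => u i k) x n) y b) ∧
          ∀ c < b, ψ.Sat (fun i => W i k) (update (update (fun i => u i k) x n) z c)})) →
          (c < ub k ∧
            ¬ ψ.Sat (fun i => W i k) (update (update (fun i => u i k) x (ua k)) z c)) := by
        intro k
        by_contra hno
        push Not at hno
        obtain ⟨⟨h1, h2⟩, h3⟩ := hno 0
        apply h2
        exact ⟨ub k, h1, fun c hc => (hno c).2 hc⟩
      choose w hw using hex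
      have hwb : ((w : ℕ → ℕ) : NS) ≤ (b : NS) := by
        rw [hub, Germ.coe_le]
        filter_upwards [hb, hcon] with k h1 h2
        exact (hw k ⟨h1, h2⟩).1.le
      have h1 := hall ⟨(w : NS), cut_lower hwb b.2⟩
      rw [hsat hψ z hua (ub := w) rfl] at h1
      have h2 : ∀ᶠ k in (hyperfilter ℕ : Filter ℕ), False := by
        filter_upwards [hb, hcon, h1] with k h1 h2 h3
        exact (hw k ⟨h1, h2⟩).2 h3
      exact h2.exists.choose_spec

/-- the set of pairs `(i, 2_i)`, where `2_i` is the `i`-th iterated power -/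
def FW : Set cut := intSet fun k => {n | ∃ i : ℕ, n = pr i (tw i k)}

theorem FW_mem : FW ∈ IS := ⟨_, rfl⟩

theorem FW_zero : ∃ b, pr (0 : cut) b ∈ FW := by
  refine ⟨⟨TW 0, 1, TW_lt 0⟩, ?_⟩
  rw [FW, mem_intSet (pr_rep zero_rep (ub := fun n => tw 0 n) rfl)]
  exact Eventually.of_forall fun k => ⟨0, rfl⟩

theorem pr_inj_nat {a b a' b' : ℕ} (h : pr a b = pr a' b') : a = a' ∧ b = b' := by
  unfold pr at h
  rcases lt_trichotomy (a + b) (a' + b') with hlt | heq | hgt
  · exfalso; nlinarith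
  · rw [heq] at h; omega
  · exfalso; nlinarith

theorem FW_succ (a : cut) (h : ∃ b, pr a b ∈ FW) : ∃ b, pr (a + 1) b ∈ FW := by
  obtain ⟨b, hb⟩ := h
  obtain ⟨ua, hua⟩ := rep (a : NS)
  obtain ⟨ub, hub⟩ := rep (b : NS)
  refine ⟨cexp b, ?_⟩
  rw [FW, mem_intSet (pr_rep hua hub)] at hb
  rw [FW, mem_intSet (pr_rep (add_rep hua one_rep) (cexp_rep hub))]
  filter_upwards [hb] with k hk
  obtain ⟨i, hi⟩ := hk
  obtain ⟨h1, h2⟩ := pr_inj_nat hi
  exact ⟨i + 1, by rw [h1, h2]; rfl⟩

theorem FW_top : ¬ ∃ b, pr (⟨TW 0, 1, TW_lt 0⟩ : cut) b ∈ FW := by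
  rintro ⟨b, hb⟩
  obtain ⟨ub, hub⟩ := rep (b : NS)
  rw [FW, mem_intSet (pr_rep (ua := fun n => tw 0 n) rfl hub)] at hb
  obtain ⟨j, hj⟩ := b.2
  unfold TW at hj
  rw [hub, Germ.coe_lt] at hj
  have h3 : ∀ᶠ k in (hyperfilter ℕ : Filter ℕ), j ≤ k := by
    have : ∀ᶠ k in (cofinite : Filter ℕ), j ≤ k := by
      rw [Nat.cofinite_eq_atTop]; exact eventually_ge_atTop j
    exact this.filter_mono hyperfilter_le_cofinite
  have h2 : ∀ᶠ k in (hyperfilter ℕ : Filter ℕ), False := by
    filter_upwards [hb, hj, h3] with k h1 h2 h3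
    obtain ⟨i, hi⟩ := h1
    obtain ⟨h4, h5⟩ := pr_inj_nat hi
    have h6 : k = i := h4
    subst h6
    rw [h5] at h2
    exact absurd h2 (not_lt.mpr (tw_mono k h3))
  exact h2.exists.choose_spec

/-- the `Π^1_1` sentence (matrix) -/
def theta : Fm :=
  .imp (Fm.and (Fm.ex 1 (.mem (prT .zero (.var 1)) 0))
    (.all 0 (.imp (Fm.ex 1 (.mem (prT (.var 0) (.var 1)) 0))
      (Fm.ex 1 (.mem (prT (sc (.var 0)) (.var 1)) 0)))))
    (.all 0 (Fm.ex 1 (.mem (prT (.var 0) (.var 1)) 0)))

theorem sat_theta {M : Type} [CommSemiring M] [LinearOrder M] (V : ℕ → Set M) (v : ℕ → M) :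
    theta.Sat V v ↔ ((∃ b, pr 0 b ∈ V 0) ∧ (∀ a, (∃ b, pr a b ∈ V 0) → ∃ b, pr (a + 1) b ∈ V 0) →
      ∀ a, ∃ b, pr a b ∈ V 0) := by
  unfold theta
  simp only [sat_imp, sat_and, sat_ex, sat_all, sat_mem, eval_prT, eval_sc, eval_var, eval_zero, eval_one, eval_add, eval_mul, update_apply]
  simp

theorem theta_of_isigma {M : Type} [CommSemiring M] [LinearOrder M] {S : Set (Set M)}
    (h : ISigma01 M S) : ClosureTrue S theta := by
  intro V v hV
  rw [sat_theta]
  rintro ⟨h0, hs⟩
  have := h (.mem (prT (.var 0) (.var 1)) 0) (.mem _ _) 0 1 v V hV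
    (by simpa [eval_var, eval_zero, eval_one, eval_add, eval_mul, update_apply] using h0)
    (by simpa [eval_var, eval_zero, eval_one, eval_add, eval_mul, update_apply] using hs)
  simpa [eval_var, eval_zero, eval_one, eval_add, eval_mul, update_apply] using this

/-- **Main theorem.** -/
theorem result :
    (∀ (M : Type) [CommSemiring M] [LinearOrder M] [IsStrictOrderedRing M]
      [CanonicallyOrderedAdd M] (S : Set (Set M)), RCAStar M S → COH M S → ISigma01 M S) ∧
    ¬ Pi11Conservative := by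
  refine ⟨fun M _ _ _ _ S h hc => coh_isigma h hc, fun hcon => ?_⟩
  have h1 := hcon theta (fun M _ _ _ _ S h hc => theta_of_isigma (coh_isigma h hc)) cut IS
    cut_model (fun _ => FW) (fun _ => 0) (fun _ => FW_mem)
  rw [sat_theta] at h1
  exact FW_top (h1 ⟨FW_zero, FW_succ⟩ _)

end Pool.Agent.Results.MP_a3848c_lc.CohProvesInduction
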